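import Pool.Agent.H27.Q8.Ev

/-!
# Q8-02: evaluation of bit-sliced states

`ev_step`: unfold `S.step`, `St.step` and the auxiliary definitions, use `ev_add`, `ev_mul`, `ev_sq`, `ev_m`,
`ev_one`, `val_*`; each of the ten components is then closed by `ring` (`p21`, `s2` etc. up to order).
`missV_false` etc.: bits of `Nat.land`, `Nat.lor` and `ev_eq_zero`.
-/

namespace Pool.Agent.H27.Q8

variable {K : Type} [Field K]

/-- the `i`-th state -/
def S.ev (z : K) (i : ℕ) (s : S) : St K :=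
  ⟨s.p11.ev z i, s.p12.ev z i, s.p21.ev z i, s.p22.ev z i, s.t1.ev z i, s.t2.ev z i, s.t3.ev z i,
    s.t4.ev z i, s.s1.ev z i, s.s2.ev z i⟩

variable {z : K}

theorem ev_swap (i : ℕ) (s : S) : s.swap.ev z i = (s.ev z i).swap := rfl

theorem ev_step (h : Gen z) (i : ℕ) (k : C) (s : S) (hi : s.one.testBit i = true) :
    (s.step k).ev z i = (s.ev z i).step (k.val z) := by
  have h1 := ev_one (z := z) i s.one hi
  apply St.ext
  · show (s.step k).p11.ev z i = _
    simp only [S.step, S.u, ev_add h, ev_mul h, ev_sq h, ev_m h, val_k h, val_k2 h]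
    simp only [S.ev, St.step]
  · show (s.step k).p12.ev z i = _
    simp only [S.step, S.y, S.pp, S.qq, S.t34, ev_add h, ev_mul h, ev_m h, val_k h, val_d1 h,
      val_c2 h, val_d2 h, h1]
    simp only [S.ev, St.step]
    ring
  · show (s.step k).p21.ev z i = _
    simp only [S.step, S.y, S.pp, S.qq, S.t34, ev_add h, ev_mul h, ev_m h, val_k h, val_c1 h,
      val_c2 h, val_d2 h, h1]
    simp only [S.ev, St.step]
    ring
  · show (s.step k).p22.ev z i = _
    simp only [S.step, S.v, ev_add h, ev_mul h, ev_sq h, ev_m h, val_k h, val_k2 h]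
    simp only [S.ev, St.step]
  · show (s.step k).t1.ev z i = _
    simp only [S.step, S.zz, S.a, S.b, ev_add h, ev_mul h, ev_m h, val_k h, val_c2 h, val_d2 h]
    simp only [S.ev, St.step]
    ring
  · show (s.step k).t2.ev z i = _
    simp only [S.step, S.zz', S.a', S.b', ev_add h, ev_mul h, ev_m h, val_k h, val_c2 h, val_d2 h]
    simp only [S.ev, St.step]
    ring
  · show (s.step k).t3.ev z i = _
    simp only [S.step, S.zz, S.a, S.b, ev_add h, ev_mul h, ev_m h, val_k h, val_c2 h, val_d2 h]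
    simp only [S.ev, St.step]
    ring
  · show (s.step k).t4.ev z i = _
    simp only [S.step, S.zz', S.a', S.b', ev_add h, ev_mul h, ev_m h, val_k h, val_c2 h, val_d2 h]
    simp only [S.ev, St.step]
    ring
  · show (s.step k).s1.ev z i = _
    simp only [S.step, S.ss, S.t12, ev_add h, ev_mul h, ev_sq h, ev_m h, val_k h, val_k2 h]
    simp only [S.ev, St.step]
  · show (s.step k).s2.ev z i = _
    simp only [S.step, S.x0, S.x3, S.t34, S.A, S.B, S.pp, S.qq, ev_add h, ev_mul h, ev_m h,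
      val_k2 h, val_k3 h]
    simp only [S.ev, St.step]
    ring

private theorem EvS_and (m n i : ℕ) : (Nat.land m n).testBit i = (m.testBit i && n.testBit i) :=
  Nat.testBit_and m n i

private theorem EvS_or (m n i : ℕ) : (Nat.lor m n).testBit i = (m.testBit i || n.testBit i) :=
  Nat.testBit_or m n i

theorem missV_false (h : Gen z) (i : ℕ) (s : S) (hm : s.missV.testBit i = false) :
    (s.ev z i).V := by
  unfold S.missV at hm
  simp only [EvS_and, EvS_or, Bool.and_eq_false_iff, Bool.or_eq_false_iff, ← ev_eq_zero h] at hm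
  show (s.p11.ev z i = 0 ∧ s.t1.ev z i = 0 ∧ s.t3.ev z i = 0) ∨
    (s.p12.ev z i = 0 ∧ s.t1.ev z i = 0 ∧ s.t4.ev z i = 0) ∨
    (s.p21.ev z i = 0 ∧ s.t2.ev z i = 0 ∧ s.t3.ev z i = 0) ∨
    (s.p22.ev z i = 0 ∧ s.t2.ev z i = 0 ∧ s.t4.ev z i = 0)
  tauto

theorem missB_false (h : Gen z) (i : ℕ) (s : S) (hm : s.missB.testBit i = false) :
    (s.ev z i).VB := by
  unfold S.missB at hm
  simp only [EvS_and, EvS_or, Bool.and_eq_false_iff, Bool.or_eq_false_iff, ← ev_eq_zero h] at hm
  show (s.p11.ev z i = 0 ∧ (s.t1.ev z i = 0 ∨ s.t3.ev z i = 0)) ∨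
    (s.p12.ev z i = 0 ∧ (s.t1.ev z i = 0 ∨ s.t4.ev z i = 0)) ∨
    (s.p21.ev z i = 0 ∧ (s.t2.ev z i = 0 ∨ s.t3.ev z i = 0)) ∨
    (s.p22.ev z i = 0 ∧ (s.t2.ev z i = 0 ∨ s.t4.ev z i = 0))
  tauto

theorem missA_false (h : Gen z) (i : ℕ) (s : S) (hm : s.missA.testBit i = false) :
    (s.ev z i).VA := by
  unfold S.missA at hm
  simp only [EvS_and, Bool.and_eq_false_iff, ← ev_eq_zero h] at hm
  show s.p11.ev z i = 0 ∨ s.p12.ev z i = 0 ∨ s.p21.ev z i = 0 ∨ s.p22.ev z i = 0
  tauto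

end Pool.Agent.H27.Q8
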