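import Pool.Agent.H27.Q8.Ev

/-!
# Q8-04: the field with 8 elements

`exists_gen`: `K` is finite with 8 elements, so `ringChar K = 2` (`8 = 0` in `K`:
`FiniteField.cast_card_eq_zero`, so `2^3 = 0`), and `x^8 = x` for all `x` (`FiniteField.pow_card`).
`x^8 - x = x (x-1) (x^3+x+1) (x^3+x^2+1)` in char 2.  There is `z` with `z ≠ 0, 1` (8 > 2 elements), and
then `z^3 = z + 1` or `z^3 = z^2 + 1`; in the second case `z⁻¹` (or `z^3`) satisfies the first equation.
`dec_surj`: the 8 values `dec z m`, `m < 8`, are distinct (differences are again `dec z m'` with `m' ≠ 0`,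
which are powers of `z`, so not 0), so the map `Fin 8 → K` is injective and hence surjective (equal
cardinalities).
`frob_norm`: for `x = dec z m`: `m < 4`: `e = 0`; `dec z 4 = z^2`: `x^4 = z^8 = z = dec z 2` (`e = 2`);
`dec z 5 = z^6`: `x^4 = z^24 = z^3 = dec z 3` (`e = 2`); `dec z 6 = z^4`: `x^2 = z^8 = z` (`e = 1`);
`dec z 7 = z^5`: `x^2 = z^10 = z^3 = dec z 3` (`e = 1`).
-/

namespace Pool.Agent.H27.Q8

variable {K : Type} [Field K]

/-- the element with the code `m < 8` -/
def dec (z : K) (m : ℕ) : K :=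
  (if m.testBit 0 then 1 else 0) + (if m.testBit 1 then z else 0) +
    (if m.testBit 2 then z ^ 2 else 0)

private theorem Fld_pow8 (hK : Nat.card K = 8) (x : K) : x ^ 8 = x := by
  have hfin : Finite K := Nat.finite_of_card_ne_zero (by rw [hK]; norm_num)
  have := Fintype.ofFinite K
  have h1 := FiniteField.pow_card x
  rw [← Nat.card_eq_fintype_card, hK] at h1
  exact h1

private theorem Fld_two (hK : Nat.card K = 8) : (2 : K) = 0 := by
  have hfin : Finite K := Nat.finite_of_card_ne_zero (by rw [hK]; norm_num)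
  have := Fintype.ofFinite K
  have h1 := FiniteField.cast_card_eq_zero K
  rw [← Nat.card_eq_fintype_card, hK] at h1
  have h2 : (2 : K) ^ 3 = 0 := by
    rw [← h1]; norm_num
  exact pow_eq_zero_iff (by norm_num) |>.1 h2

theorem exists_gen (hK : Nat.card K = 8) : ∃ z : K, Gen z := by
  have h2 := Fld_two hK
  have hz : ∃ z : K, z ≠ 0 ∧ z ≠ 1 := by
    by_contra hc
    push Not at hc
    have hfin : Finite K := Nat.finite_of_card_ne_zero (by rw [hK]; norm_num)
    have := Fintype.ofFinite K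
    classical
    have hs : (Finset.univ : Finset K) ⊆ {0, 1} := by
      intro z _
      rw [Finset.mem_insert, Finset.mem_singleton]
      by_cases h0 : z = 0
      · exact Or.inl h0
      · exact Or.inr (hc z h0)
    have h3 := Finset.card_le_card hs
    have h4 : (Finset.univ : Finset K).card = 8 := by
      rw [Finset.card_univ, ← Nat.card_eq_fintype_card, hK]
    have h5 : ({0, 1} : Finset K).card ≤ 2 := Finset.card_le_two
    omega
  obtain ⟨z, hz0, hz1⟩ := hz
  have h8 := Fld_pow8 hK z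
  have hz1' : z - 1 ≠ 0 := sub_ne_zero.2 hz1
  have hprod : (z ^ 3 + z + 1) * (z ^ 3 + z ^ 2 + 1) = 0 := by
    have : z * (z - 1) * ((z ^ 3 + z + 1) * (z ^ 3 + z ^ 2 + 1)) = 0 := by
      linear_combination h8 + z * (z - 1) * z ^ 3 * h2
    rcases mul_eq_zero.1 this with h | h
    · rcases mul_eq_zero.1 h with h | h
      · exact absurd h hz0
      · exact absurd h hz1'
    · exact h
  rcases mul_eq_zero.1 hprod with h | h
  · exact ⟨z, h2, by linear_combination h - (z + 1) * h2⟩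
  · refine ⟨z⁻¹, h2, ?_⟩
    have h3 : z ^ 3 * (z⁻¹ ^ 3 - z⁻¹ - 1) = 0 := by
      have e1 : z * z⁻¹ = 1 := mul_inv_cancel₀ hz0
      have e2 : z ^ 3 * (z⁻¹ ^ 3 - z⁻¹ - 1) = (z * z⁻¹) ^ 3 - z ^ 2 * (z * z⁻¹) - z ^ 3 := by ring
      rw [e2, e1]
      linear_combination (-1 : K) * h + h2
    rcases mul_eq_zero.1 h3 with h4 | h4
    · exact absurd h4 (pow_ne_zero _ hz0)
    · linear_combination h4

theorem pow8 (hK : Nat.card K = 8) (x : K) : x ^ 8 = x := by
  exact Fld_pow8 hK x

variable {z : K}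

private theorem Fld_d1 : dec z 1 = 1 := by
  simp [dec, Nat.testBit]

private theorem Fld_d2 : dec z 2 = z := by
  simp [dec, Nat.testBit]

private theorem Fld_d3 (h : Gen z) : dec z 3 = z ^ 3 := by
  rw [h.cub]
  simp [dec, Nat.testBit]
  ring

private theorem Fld_d4 : dec z 4 = z ^ 2 := by
  simp [dec, Nat.testBit]

private theorem Fld_d5 (h : Gen z) : dec z 5 = z ^ 6 := by
  have h6 : z ^ 6 = z ^ 2 + 1 := by
    linear_combination (z ^ 3 + z + 1) * h.cub + z * h.two
  rw [h6]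
  simp [dec, Nat.testBit]
  ring

private theorem Fld_d6 (h : Gen z) : dec z 6 = z ^ 4 := by
  have h4 : z ^ 4 = z ^ 2 + z := by
    linear_combination z * h.cub
  rw [h4]
  simp [dec, Nat.testBit]
  ring

private theorem Fld_d7 (h : Gen z) : dec z 7 = z ^ 5 := by
  have h5 : z ^ 5 = z ^ 2 + z + 1 := by
    linear_combination (z ^ 2 + 1) * h.cub
  rw [h5]
  simp [dec, Nat.testBit]
  ring

private theorem Fld_pow (hK : Nat.card K = 8) (h : Gen z) (x : K) (hx : x ≠ 0) :
    ∃ i < 7, x = z ^ i := by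
  have hp : Fact (Nat.Prime 7) := ⟨by norm_num⟩
  have ho : orderOf z = 7 := orderOf_eq_prime h.z7 (h.val_ne C.z1).2
  have hr : IsPrimitiveRoot z 7 := by
    have := IsPrimitiveRoot.orderOf z
    rwa [ho] at this
  have h8 := Fld_pow8 hK x
  have h7 : x ^ 7 = 1 := by
    have : x * (x ^ 7 - 1) = 0 := by linear_combination h8
    rcases mul_eq_zero.1 this with h0 | h0
    · exact absurd h0 hx
    · linear_combination h0
  obtain ⟨i, hi, hi2⟩ := hr.eq_pow_of_pow_eq_one h7
  exact ⟨i, hi, hi2.symm⟩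

theorem dec_surj (hK : Nat.card K = 8) (h : Gen z) (x : K) : ∃ m < 8, x = dec z m := by
  by_cases hx : x = 0
  · exact ⟨0, by norm_num, by rw [hx]; simp [dec]⟩
  obtain ⟨i, hi, rfl⟩ := Fld_pow hK h x hx
  interval_cases i
  · exact ⟨1, by norm_num, by rw [Fld_d1, pow_zero]⟩
  · exact ⟨2, by norm_num, by rw [Fld_d2, pow_one]⟩
  · exact ⟨4, by norm_num, by rw [Fld_d4]⟩
  · exact ⟨3, by norm_num, by rw [Fld_d3 h]⟩
  · exact ⟨6, by norm_num, by rw [Fld_d6 h]⟩
  · exact ⟨7, by norm_num, by rw [Fld_d7 h]⟩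
  · exact ⟨5, by norm_num, by rw [Fld_d5 h]⟩

theorem frob_norm (hK : Nat.card K = 8) (h : Gen z) (x : K) :
    ∃ e : ℕ, e < 3 ∧ ∃ m < 4, x ^ 2 ^ e = dec z m := by
  have h7 := h.z7
  by_cases hx : x = 0
  · exact ⟨0, by norm_num, 0, by norm_num, by rw [hx]; simp [dec]⟩
  obtain ⟨i, hi, rfl⟩ := Fld_pow hK h x hx
  interval_cases i
  · exact ⟨0, by norm_num, 1, by norm_num, by rw [Fld_d1]; ring⟩
  · exact ⟨0, by norm_num, 2, by norm_num, by rw [Fld_d2]; ring⟩
  · exact ⟨2, by norm_num, 2, by norm_num, by rw [Fld_d2]; linear_combination z * h7⟩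
  · exact ⟨0, by norm_num, 3, by norm_num, by rw [Fld_d3 h]; ring⟩
  · exact ⟨1, by norm_num, 2, by norm_num, by rw [Fld_d2]; linear_combination z * h7⟩
  · exact ⟨1, by norm_num, 3, by norm_num, by rw [Fld_d3 h]; linear_combination z ^ 3 * h7⟩
  · exact ⟨2, by norm_num, 3, by norm_num, by
      rw [Fld_d3 h]; linear_combination z ^ 3 * (z ^ 14 + z ^ 7 + 1) * h7⟩

theorem dec_zero : dec z 0 = 0 := by
  simp [dec]

theorem dec_one : dec z 1 = 1 := by
  exact Fld_d1

end Pool.Agent.H27.Q8
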