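import Pool.Agent.H27.Q8.EvS
import Pool.Agent.H27.Q8.Fld

/-!
# Q8-05: the planes of the variables
-/

namespace Pool.Agent.H27.Q8

variable {K : Type} [Field K] {z : K}

theorem pl_succ (b m : ℕ) : pl b (m + 1) = Bool.rec (motive := fun _ => ℕ)
    (Nat.lor (pl b m) (Nat.shiftLeft (pl b m) (Nat.pow 2 m)))
    (Nat.shiftLeft (Nat.sub (Nat.pow 2 (Nat.pow 2 m)) 1) (Nat.pow 2 m)) (Nat.beq b m) := rfl

theorem pl_succ_eq (m : ℕ) : pl m (m + 1) = (2 ^ 2 ^ m - 1) <<< 2 ^ m := by
  rw [pl_succ]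
  have : Nat.beq m m = true := Nat.beq_refl m
  rw [this]
  rfl

theorem pl_succ_ne {b m : ℕ} (h : b ≠ m) : pl b (m + 1) = pl b m ||| (pl b m <<< 2 ^ m) := by
  rw [pl_succ]
  have : Nat.beq b m = false := by
    rw [Bool.eq_false_iff]
    intro h'
    exact h (Nat.eq_of_beq_eq_true h')
  rw [this]
  rfl

theorem testBit_pl_ge (b : ℕ) : ∀ n i, 2 ^ n ≤ i → (pl b n).testBit i = false := by
  intro n
  induction n with
  | zero => intro i _; show (0 : ℕ).testBit i = false; exact Nat.zero_testBit i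
  | succ m ih =>
    intro i hi
    have h2 : 2 ^ (m + 1) = 2 ^ m + 2 ^ m := by ring
    by_cases hb : b = m
    · subst hb
      rw [pl_succ_eq, Nat.testBit_shiftLeft, Nat.testBit_two_pow_sub_one]
      have : ¬ (i - 2 ^ b < 2 ^ b) := by omega
      simp [this]
    · rw [pl_succ_ne hb, Nat.testBit_or, Nat.testBit_shiftLeft, ih i (by omega),
        ih (i - 2 ^ m) (by omega)]
      simp

theorem testBit_pl {b n i : ℕ} (hb : b < n) (hi : i < 2 ^ n) :
    (pl b n).testBit i = i.testBit b := by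
  induction n generalizing i with
  | zero => omega
  | succ m ih =>
    have h2 : 2 ^ (m + 1) = 2 ^ m + 2 ^ m := by ring
    by_cases hb' : b = m
    · subst hb'
      rw [pl_succ_eq, Nat.testBit_shiftLeft, Nat.testBit_two_pow_sub_one]
      by_cases hi' : i < 2 ^ b
      · rw [Nat.testBit_lt_two_pow hi']
        simp [hi']
      · obtain ⟨j, rfl⟩ := Nat.exists_eq_add_of_le (not_lt.mp hi')
        have hj : j < 2 ^ b := by omega
        rw [Nat.testBit_two_pow_add_eq, Nat.testBit_lt_two_pow hj]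
        simp [hj]
    · rw [pl_succ_ne hb', Nat.testBit_or, Nat.testBit_shiftLeft]
      by_cases hi' : i < 2 ^ m
      · rw [ih (by omega) hi']
        have : ¬ (i ≥ 2 ^ m) := by omega
        simp [this]
      · obtain ⟨j, rfl⟩ := Nat.exists_eq_add_of_le (not_lt.mp hi')
        have hj : j < 2 ^ m := by omega
        rw [testBit_pl_ge b m _ (by omega), Nat.testBit_two_pow_add_gt (by omega), Nat.add_sub_cancel_left,
          ih (by omega) hj]
        simp

theorem testBit_mask {n i : ℕ} (hi : i < 2 ^ n) : (mask n).testBit i = true := by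
  show (2 ^ 2 ^ n - 1).testBit i = true
  rw [Nat.testBit_two_pow_sub_one]
  simp [hi]

theorem ev_vr {n k i : ℕ} (hk : 3 * k + 2 < n) (hi : i < 2 ^ n) :
    (vr n k).ev z i = dec z (i / 8 ^ k % 8) := by
  have h8 : (8 : ℕ) ^ k = 2 ^ (3 * k) := by rw [pow_mul]; norm_num
  have h3 : (8 : ℕ) = 2 ^ 3 := by norm_num
  have e : ∀ j, j < 3 → (i / 8 ^ k % 8).testBit j = i.testBit (3 * k + j) := by
    intro j hj
    rw [h8, h3, Nat.testBit_mod_two_pow, Nat.testBit_div_two_pow]
    simp [hj, add_comm]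
  have e0 := e 0 (by omega)
  have e1 := e 1 (by omega)
  have e2 := e 2 (by omega)
  unfold W.ev dec vr
  rw [e0, e1, e2, add_zero]
  show (if (pl (3 * k) n).testBit i then 1 else 0) + (if (pl (3 * k + 1) n).testBit i then z else 0) +
    (if (pl (3 * k + 2) n).testBit i then z ^ 2 else 0) = _
  rw [testBit_pl (by omega) hi, testBit_pl (by omega) hi, testBit_pl (by omega) hi]

theorem ev_cst {n v i : ℕ} (hi : i < 2 ^ n) : (cst n v).ev z i = dec z v := by
  have hm := testBit_mask hi
  have e : ∀ b : Bool, (Bool.rec 0 (mask n) b : ℕ).testBit i = b := by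
    intro b
    cases b
    · exact Nat.zero_testBit i
    · exact hm
  unfold W.ev dec cst
  show (if (Bool.rec 0 (mask n) (Nat.testBit v 0) : ℕ).testBit i then 1 else 0) +
    (if (Bool.rec 0 (mask n) (Nat.testBit v 1) : ℕ).testBit i then z else 0) +
    (if (Bool.rec 0 (mask n) (Nat.testBit v 2) : ℕ).testBit i then z ^ 2 else 0) = _
  rw [e, e, e]

end Pool.Agent.H27.Q8
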