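import Pool.Agent.H27.Q8.Fld

/-!
# Q8-07: the Frobenius automorphism

`good_frob`: induction on `Good s`: `(s.step c).frob = s.frob.step (c^2)` (char 2: `(x+y)^2 = x^2+y^2`,
`(c⁻¹)^2 = (c^2)⁻¹`), `c^2 ≠ 0, 1`.  `good_of_frob`: `x^8 = x`, so `s.frob.frob.frob = s`.
`good_of_frob_iter`: iterate.
-/

namespace Pool.Agent.H27.Q8

variable {K : Type} [Field K]

theorem frob_sq2 (h2 : (2 : K) = 0) (x y : K) : (x + y) ^ 2 = x ^ 2 + y ^ 2 := by
  linear_combination (x * y) * h2

theorem frob_step (h2 : (2 : K) = 0) (c : K) (s : St K) : (s.step c).frob = s.frob.step (c ^ 2) := by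
  have cube : ∀ x : K, (x ^ 3) ^ 2 = (x ^ 2) ^ 3 := by
    intro x
    ring
  ext <;>
    simp only [St.step, St.frob, mul_pow, cube, frob_sq2 h2, inv_pow, one_pow]

theorem good_frob (h2 : (2 : K) = 0) {s : St K} (hs : Good s) : Good s.frob := by
  induction hs with
  | base h =>
    apply Good.base
    unfold St.V at h ⊢
    simpa [St.frob] using h
  | step c h0 h1 _ ih =>
    rw [frob_step h2] at ih
    refine Good.step (c ^ 2) (pow_ne_zero 2 h0) ?_ ih
    intro h3
    have h4 : (c + 1) ^ 2 = 0 := by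
      rw [frob_sq2 h2, h3]
      linear_combination h2
    have h5 : c + 1 = 0 := by
      simpa using h4
    apply h1
    linear_combination h5 - h2
  | swap _ ih => exact Good.swap ih

theorem frob3 (hK : Nat.card K = 8) (s : St K) : s.frob.frob.frob = s := by
  have h : ∀ x : K, ((x ^ 2) ^ 2) ^ 2 = x := by
    intro x
    rw [← pow_mul, ← pow_mul]
    exact pow8 hK x
  ext <;> simp only [St.frob, h]

theorem good_of_frob (hK : Nat.card K = 8) (h2 : (2 : K) = 0) {s : St K} (hs : Good s.frob) :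
    Good s := by
  rw [← frob3 hK s]
  exact good_frob h2 (good_frob h2 hs)

theorem good_of_frob_iter (hK : Nat.card K = 8) (h2 : (2 : K) = 0) (e : ℕ) {s : St K}
    (hs : Good (St.frob^[e] s)) : Good s := by
  induction e with
  | zero => exact hs
  | succ e ih =>
    rw [Function.iterate_succ_apply'] at hs
    exact ih (good_of_frob hK h2 hs)

theorem frob_iter (e : ℕ) (s : St K) : St.frob^[e] s =
    ⟨s.p11 ^ 2 ^ e, s.p12 ^ 2 ^ e, s.p21 ^ 2 ^ e, s.p22 ^ 2 ^ e, s.t1 ^ 2 ^ e, s.t2 ^ 2 ^ e,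
      s.t3 ^ 2 ^ e, s.t4 ^ 2 ^ e, s.s1 ^ 2 ^ e, s.s2 ^ 2 ^ e⟩ := by
  induction e with
  | zero => simp
  | succ e ih =>
    rw [Function.iterate_succ_apply', ih]
    simp only [St.frob, ← pow_mul, pow_succ 2 e]

/-- normal form: after a power of the Frobenius automorphism the code of `s1` is 2 or 3, or it is 0 or 1
and the code of `t2` is less than 4 -/
theorem frob_nf (hK : Nat.card K = 8) {z : K} (h : Gen z) (s : St K) : ∃ e : ℕ,
    (∃ m, (m = 2 ∨ m = 3) ∧ (St.frob^[e] s).s1 = dec z m) ∨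
    (∃ m < 2, ∃ n < 4, (St.frob^[e] s).s1 = dec z m ∧ (St.frob^[e] s).t2 = dec z n) := by
  obtain ⟨e, he, m, hm, h1⟩ := frob_norm hK h s.s1
  by_cases hm2 : 2 ≤ m
  · refine ⟨e, Or.inl ⟨m, by omega, ?_⟩⟩
    rw [frob_iter]
    exact h1
  · obtain ⟨f, hf, n, hn, h3⟩ := frob_norm hK h s.t2
    refine ⟨f, Or.inr ⟨m, by omega, n, hn, ?_, ?_⟩⟩
    · rw [frob_iter]
      show s.s1 ^ 2 ^ f = dec z m
      have h4 : s.s1 = (dec z m) ^ 2 ^ (3 - e) := by
        rw [← h1, ← pow_mul, ← pow_add]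
        have h5 : e + (3 - e) = 3 := by omega
        rw [h5]
        exact (pow8 hK s.s1).symm
      have h6 : m = 0 ∨ m = 1 := by omega
      rcases h6 with h6 | h6
      · subst h6
        rw [dec_zero] at h4 ⊢
        rw [h4, zero_pow (by positivity), zero_pow (by positivity)]
      · subst h6
        rw [dec_one] at h4 ⊢
        rw [h4, one_pow, one_pow]
    · rw [frob_iter]
      exact h3

end Pool.Agent.H27.Q8
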