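import Pool.Agent.H27.Q8.Sl

/-!
# The chunks of the table (2^15 states each)
-/

namespace Pool.Agent.H27.Q8

/-- all states of `s` are in the target set or are moved into it by a word of the tree -/
noncomputable def ok (miss : S → Nat) (t : T) (s : S) : Bool :=
  Nat.beq (Nat.land (miss s) (t.run miss s)) 0

/-- `p11 = 0, t1 = 1, t3 = 0`; `s1` and `t4` fixed -/
noncomputable def stB (s1 t4 : Nat) : S :=
  { p11 := cst 15 0
    p12 := vr 15 0
    p21 := vr 15 1
    p22 := vr 15 2
    t1 := cst 15 1
    t2 := vr 15 3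
    t3 := cst 15 0
    t4 := cst 15 t4
    s1 := cst 15 s1
    s2 := vr 15 4
    one := mask 15 }

/-- `p11 = 0, t1 = t3 = 1`; `s1` and `p12` fixed -/
noncomputable def stA (s1 p12 : Nat) : S :=
  { p11 := cst 15 0
    p12 := cst 15 p12
    p21 := vr 15 0
    p22 := vr 15 1
    t1 := cst 15 1
    t2 := vr 15 2
    t3 := cst 15 1
    t4 := vr 15 3
    s1 := cst 15 s1
    s2 := vr 15 4
    one := mask 15 }

/-- `p11 = p12 = 1`; `s1`, `t1` and `t3` fixed -/
noncomputable def stO (s1 t1 t3 : Nat) : S :=
  { p11 := cst 15 1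
    p12 := cst 15 1
    p21 := vr 15 0
    p22 := vr 15 1
    t1 := cst 15 t1
    t2 := vr 15 2
    t3 := cst 15 t3
    t4 := vr 15 3
    s1 := cst 15 s1
    s2 := vr 15 4
    one := mask 15 }

/-- `f i t = true` for the list of trees -/
def allF (f : Nat → T → Bool) (l : List T) : Nat → Bool :=
  List.rec (fun _ => true) (fun t _ ih i => and (f i t) (ih (i + 1))) l

theorem exists_of_allF {f : Nat → T → Bool} : ∀ (l : List T) (a : Nat), allF f l a = true →
    ∀ i < l.length, ∃ t, f (a + i) t = true
  | [], _, _, i, hi => by simp at hi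
  | t :: l, a, h, i, hi => by
    have h' : and (f a t) (allF f l (a + 1)) = true := h
    rw [Bool.and_eq_true] at h'
    cases i with
    | zero => exact ⟨t, h'.1⟩
    | succ i =>
      obtain ⟨t', ht'⟩ := exists_of_allF l (a + 1) h'.2 i (by simpa using hi)
      exact ⟨t', by rw [← ht']; congr 1; omega⟩

/-- abbreviation -/
def n : T := .nil
/-- abbreviation -/
def u (k : C) (a b : T) : T := .cons k false a b
/-- abbreviation -/
def w (k : C) (a b : T) : T := .cons k true a b

end Pool.Agent.H27.Q8
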