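import Pool.Agent.H27.Q8.EvS
import Pool.Agent.H27.Q8.ChkDefs

/-!
# Q8-03: soundness of the trees

Induction on the tree `t` (for all `s`): if bit `i` of `t.run miss s` is 0 and bit `i` of `s.one` is 1
then the `i`-th state is good.  `nil`: impossible.  `cons k sw ch nx`: with `s' = s` or `s.swap`
(`one` unchanged, `ev_swap`), bit `i` of one of the three factors is 0: `miss (s'.step k)`: the state
`(s'.ev z i).step (k.val z)` (`ev_step`) is good by `hm`; `ch`: the same by induction (`(s'.step k).one =
s.one`); then `Good.step` (with `Gen.val_ne`) and, if `sw = true`, `Good.swap`.  `nx`: induction.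
`good_of_ok`: bit `i` of `Nat.land (miss s) (t.run miss s) = 0` is 0.
-/

namespace Pool.Agent.H27.Q8

variable {K : Type} [Field K] {z : K}

theorem good_of_run (h : Gen z) {miss : S → Nat}
    (hm : ∀ (s : S) (i : ℕ), (miss s).testBit i = false → Good (s.ev z i)) (t : T) (s : S) (i : ℕ)
    (hi : s.one.testBit i = true) (ht : (t.run miss s).testBit i = false) : Good (s.ev z i) := by
  have hand : ∀ m n : ℕ, (Nat.land m n).testBit i = (m.testBit i && n.testBit i) :=
    fun m n => Nat.testBit_and m n i
  induction t generalizing s with
  | nil =>
    have e : T.nil.run miss s = s.one := rfl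
    rw [e, hi] at ht
    exact absurd ht (by decide)
  | cons k sw ch nx ih1 ih2 =>
    have hv := h.val_ne k
    cases sw with
    | false =>
      have e : (T.cons k false ch nx).run miss s =
        Nat.land (miss (S.step k s)) (Nat.land (ch.run miss (S.step k s)) (nx.run miss s)) := rfl
      rw [e, hand, hand, Bool.and_eq_false_iff, Bool.and_eq_false_iff] at ht
      have e2 := ev_step h i k s hi
      rcases ht with ht | ht | ht
      · have h1 := hm _ i ht
        rw [e2] at h1
        exact Good.step _ hv.1 hv.2 h1
      · have h1 := ih1 (S.step k s) hi ht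
        rw [e2] at h1
        exact Good.step _ hv.1 hv.2 h1
      · exact ih2 s hi ht
    | true =>
      have e : (T.cons k true ch nx).run miss s =
        Nat.land (miss (S.step k s.swap)) (Nat.land (ch.run miss (S.step k s.swap))
          (nx.run miss s)) := rfl
      rw [e, hand, hand, Bool.and_eq_false_iff, Bool.and_eq_false_iff] at ht
      have hi' : s.swap.one.testBit i = true := hi
      have e2 := ev_step h i k s.swap hi'
      rw [ev_swap] at e2
      rcases ht with ht | ht | ht
      · have h1 := hm _ i ht
        rw [e2] at h1
        exact Good.swap (Good.step _ hv.1 hv.2 h1)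
      · have h1 := ih1 (S.step k s.swap) hi' ht
        rw [e2] at h1
        exact Good.swap (Good.step _ hv.1 hv.2 h1)
      · exact ih2 s hi ht

theorem good_of_ok (h : Gen z) {miss : S → Nat}
    (hm : ∀ (s : S) (i : ℕ), (miss s).testBit i = false → Good (s.ev z i)) {t : T} {s : S}
    (hok : ok miss t s = true) (i : ℕ) (hi : s.one.testBit i = true) : Good (s.ev z i) := by
  have hand : ∀ m n : ℕ, (Nat.land m n).testBit i = (m.testBit i && n.testBit i) :=
    fun m n => Nat.testBit_and m n i
  have e : Nat.land (miss s) (t.run miss s) = 0 := Nat.eq_of_beq_eq_true hok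
  have e2 : (Nat.land (miss s) (t.run miss s)).testBit i = false := by rw [e]; simp
  rw [hand, Bool.and_eq_false_iff] at e2
  rcases e2 with e2 | e2
  · exact hm s i e2
  · exact good_of_run h hm t s i hi e2

end Pool.Agent.H27.Q8
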