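import Pool.Agent.H27.Q8.St

/-!
# Q8-06: symmetries of the set of good states: scaling and interchanges
-/

namespace Pool.Agent.H27.Q8

variable {K : Type} [Field K]

theorem step_scale (s : St K) {l m c : K} (hl : l ≠ 0) (hm : m ≠ 0) :
    (s.scale l m).step c = (s.step c).scale m m := by
  ext <;> simp only [St.scale, St.step] <;> generalize c⁻¹ = d <;> field_simp

theorem V_scale {s : St K} (l m : K) (hs : s.V) : (s.scale l m).V := by
  rcases hs with ⟨h1, h2, h3⟩ | ⟨h1, h2, h3⟩ | ⟨h1, h2, h3⟩ | ⟨h1, h2, h3⟩
  · exact Or.inl (by simp [St.scale, h1, h2, h3])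
  · exact Or.inr (Or.inl (by simp [St.scale, h1, h2, h3]))
  · exact Or.inr (Or.inr (Or.inl (by simp [St.scale, h1, h2, h3])))
  · exact Or.inr (Or.inr (Or.inr (by simp [St.scale, h1, h2, h3])))

theorem swap_scale (s : St K) (l m : K) : (s.scale l m).swap = s.swap.scale m l := by
  ext <;> simp only [St.scale, St.swap] <;> ring

theorem good_scale {s : St K} (hs : Good s) : ∀ {l m : K}, l ≠ 0 → m ≠ 0 → Good (s.scale l m) := by
  induction hs with
  | base hV => intro l m _ _; exact .base (V_scale l m hV)
  | step c h0 h1 _ ih =>
    intro l m hl hm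
    refine .step c h0 h1 ?_
    rw [step_scale _ hl hm]
    exact ih hm hm
  | swap _ ih =>
    intro l m hl hm
    refine .swap ?_
    rw [swap_scale]
    exact ih hm hl

theorem good_of_scale {s : St K} {l m : K} (hl : l ≠ 0) (hm : m ≠ 0) (hs : Good (s.scale l m)) :
    Good s := by
  have h := good_scale hs (inv_ne_zero hl) (inv_ne_zero hm)
  have e1 : l⁻¹ * l = 1 := inv_mul_cancel₀ hl
  have e2 : m⁻¹ * m = 1 := inv_mul_cancel₀ hm
  have : (s.scale l m).scale l⁻¹ m⁻¹ = s := by
    have e3 : l * l⁻¹ = 1 := mul_inv_cancel₀ hl
    have e4 : m * m⁻¹ = 1 := mul_inv_cancel₀ hm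
    ext <;> simp only [St.scale, inv_inv] <;> field_simp
  rwa [this] at h

/-- `flipX` if `a`, `flipY` if `b` -/
def flips (a b : Bool) (s : St K) : St K :=
  match a, b with
  | false, false => s
  | true, false => s.flipX
  | false, true => s.flipY
  | true, true => s.flipX.flipY

theorem good_flips (h2 : (2 : K) = 0) {s : St K} (hs : Good s) : ∀ a b, Good (flips a b s) := by
  have hadd : ∀ x y : K, x + (x + y) = y := fun x y => by linear_combination x * h2
  have V1 : ∀ s : St K, s.V → s.flipX.V := by
    intro s hs
    rcases hs with h | h | h | h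
    · exact Or.inr (Or.inr (Or.inl h))
    · exact Or.inr (Or.inr (Or.inr h))
    · exact Or.inl h
    · exact Or.inr (Or.inl h)
  have V2 : ∀ s : St K, s.V → s.flipY.V := by
    intro s hs
    rcases hs with h | h | h | h
    · exact Or.inr (Or.inl h)
    · exact Or.inl h
    · exact Or.inr (Or.inr (Or.inr h))
    · exact Or.inr (Or.inr (Or.inl h))
  have X1 : ∀ (s : St K) (c : K), s.flipX.step c = s.step c⁻¹ := by
    intro s c
    ext <;> simp only [St.flipX, St.step, inv_inv]
    · ring
    · linear_combination c⁻¹ * s.s1 * h2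
    · linear_combination c * s.s1 * h2
    · ring
    · ring
    · ring
    · ring
    · ring
    · ring
    · linear_combination (c + c⁻¹) ^ 3 * (s.s1 * s.p12 * s.p21) * h2
  have Y1 : ∀ (s : St K) (c : K), s.flipY.step c = (s.step c).flipX.flipY := by
    intro s c
    ext <;> simp only [St.flipX, St.flipY, St.step]
    case p12 => linear_combination c⁻¹ * s.s1 * h2
    case p21 => linear_combination c * s.s1 * h2
    case s2 =>
      linear_combination ((c + c⁻¹) ^ 3 * (s.s1 * s.p12 * s.p21) -
        ((c + c⁻¹) * (s.s1 + s.s1 ^ 2) + (c + c⁻¹) ^ 2 * (s.t1 * s.t2))) * h2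
  have SX : ∀ s : St K, s.flipX.swap = s.swap.flipY := fun s => rfl
  have SY : ∀ s : St K, s.flipY.swap = s.swap.flipX := fun s => rfl
  have XX : ∀ s : St K, s.flipX.flipX = s := by
    intro s
    ext <;> simp only [St.flipX, hadd]
  have YY : ∀ s : St K, s.flipY.flipY = s := by
    intro s
    ext <;> simp only [St.flipY, hadd]
  have XY : ∀ s : St K, s.flipX.flipY = s.flipY.flipX := by
    intro s
    ext <;> simp only [St.flipX, St.flipY, hadd]
  induction hs with
  | base hV =>
    intro a b
    cases a <;> cases b
    · exact .base hV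
    · exact .base (V2 _ hV)
    · exact .base (V1 _ hV)
    · exact .base (V2 _ (V1 _ hV))
  | step c h0 h1 _ ih =>
    have i1 : c⁻¹ ≠ 1 := fun h => h1 (by rw [← inv_inv c, h, inv_one])
    have i0 : c⁻¹ ≠ 0 := inv_ne_zero h0
    intro a b
    cases a <;> cases b
    · exact .step c h0 h1 (ih false false)
    · refine .step c h0 h1 ?_
      show Good (St.step c (St.flipY _))
      rw [Y1]
      exact ih true true
    · refine .step c⁻¹ i0 i1 ?_
      show Good (St.step _ (St.flipX _))
      rw [X1, inv_inv]
      exact ih false false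
    · refine .step c⁻¹ i0 i1 ?_
      show Good (St.step _ (St.flipY (St.flipX _)))
      rw [Y1, X1, inv_inv]
      exact ih true true
  | swap _ ih =>
    intro a b
    refine .swap ?_
    cases a <;> cases b
    · exact ih false false
    · exact ih true false
    · exact ih false true
    · have := ih true true
      show Good (St.swap (St.flipY (St.flipX _)))
      rw [SY, SX, ← XY]
      exact this

theorem good_flipX (h2 : (2 : K) = 0) {s : St K} (hs : Good s.flipX) : Good s := by
  have h := good_flips h2 hs true false
  have : flips true false s.flipX = s := by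
    ext <;> simp only [flips, St.flipX]
    linear_combination s.s1 * h2
  rwa [this] at h

theorem good_flipY (h2 : (2 : K) = 0) {s : St K} (hs : Good s.flipY) : Good s := by
  have h := good_flips h2 hs false true
  have : flips false true s.flipY = s := by
    ext <;> simp only [flips, St.flipY]
    linear_combination s.s1 * h2
  rwa [this] at h

end Pool.Agent.H27.Q8
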