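import Pool.Agent.H27.Q8.Tab
import Pool.Agent.H27.Q8.Run
import Pool.Agent.H27.Q8.Pl
import Pool.Agent.H27.Q8.Sym
import Pool.Agent.H27.Q8.Frob

/-!
# Every state is good (field with 8 elements)

Three stages: `p11 = t3 = 0` (target `V`), `p11 = 0` (target `VB`), all states (target `VA`).
-/

namespace Pool.Agent.H27.Q8

variable {K : Type} [Field K]

theorem idx5 {a0 a1 a2 a3 a4 : ℕ} (h0 : a0 < 8) (h1 : a1 < 8) (h2 : a2 < 8) (h3 : a3 < 8)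
    (h4 : a4 < 8) : ∃ i < 2 ^ 15, i / 8 ^ 0 % 8 = a0 ∧ i / 8 ^ 1 % 8 = a1 ∧ i / 8 ^ 2 % 8 = a2 ∧
      i / 8 ^ 3 % 8 = a3 ∧ i / 8 ^ 4 % 8 = a4 := by
  refine ⟨a0 + 8 * a1 + 64 * a2 + 512 * a3 + 4096 * a4, ?_, ?_, ?_, ?_, ?_, ?_⟩ <;> norm_num <;>
    omega

theorem one_B (m t i : ℕ) (hi : i < 2 ^ 15) : (stB m t).one.testBit i = true := by
  have h : (stB m t).one = mask 15 := by rw [stB]
  rw [h]
  exact testBit_mask (n := 15) hi

theorem one_A (m t i : ℕ) (hi : i < 2 ^ 15) : (stA m t).one.testBit i = true := by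
  have h : (stA m t).one = mask 15 := by rw [stA]
  rw [h]
  exact testBit_mask (n := 15) hi

theorem one_O (m t t' i : ℕ) (hi : i < 2 ^ 15) : (stO m t t').one.testBit i = true := by
  have h : (stO m t t').one = mask 15 := by rw [stO]
  rw [h]
  exact testBit_mask (n := 15) hi

theorem frob_nf1 (hK : Nat.card K = 8) {z : K} (h : Gen z) (s : St K) :
    ∃ e : ℕ, ∃ m < 4, (St.frob^[e] s).s1 = dec z m := by
  obtain ⟨e, -, m, hm, he⟩ := frob_norm hK h s.s1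
  exact ⟨e, m, hm, by rw [frob_iter]; exact he⟩

theorem good_B (hK : Nat.card K = 8) (s : St K) (h1 : s.p11 = 0) (h3 : s.t3 = 0) : Good s := by
  obtain ⟨z, h⟩ := exists_gen hK
  by_cases ht : s.t1 = 0
  · exact Good.base (Or.inl ⟨h1, ht, h3⟩)
  -- scaling
  obtain ⟨m, hm, hm'⟩ : ∃ m : K, m ≠ 0 ∧ (m⁻¹ * s.t4 = 0 ∨ m⁻¹ * s.t4 = 1) := by
    by_cases h4 : s.t4 = 0
    · exact ⟨1, one_ne_zero, Or.inl (by rw [h4, mul_zero])⟩
    · exact ⟨s.t4, h4, Or.inr (inv_mul_cancel₀ h4)⟩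
  refine good_of_scale (l := s.t1⁻¹) (m := m) (inv_ne_zero ht) hm ?_
  obtain ⟨e, v, hv, he⟩ := frob_nf1 hK h (s.scale s.t1⁻¹ m)
  refine good_of_frob_iter hK h.two e ?_
  rw [frob_iter] at he ⊢
  obtain ⟨a0, h0, e0⟩ := dec_surj hK h ((s.scale s.t1⁻¹ m).p12 ^ 2 ^ e)
  obtain ⟨a1, h1', e1⟩ := dec_surj hK h ((s.scale s.t1⁻¹ m).p21 ^ 2 ^ e)
  obtain ⟨a2, h2, e2⟩ := dec_surj hK h ((s.scale s.t1⁻¹ m).p22 ^ 2 ^ e)
  obtain ⟨a3, h3', e3⟩ := dec_surj hK h ((s.scale s.t1⁻¹ m).t2 ^ 2 ^ e)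
  obtain ⟨a4, h4, e4⟩ := dec_surj hK h ((s.scale s.t1⁻¹ m).s2 ^ 2 ^ e)
  obtain ⟨tt, htt, e5⟩ : ∃ tt < 2, (s.scale s.t1⁻¹ m).t4 ^ 2 ^ e = dec z tt := by
    rcases hm' with h5 | h5
    · exact ⟨0, by norm_num, by rw [dec_zero]; simp [St.scale, h5]⟩
    · exact ⟨1, by norm_num, by rw [dec_one]; simp [St.scale, h5]⟩
  have e6 : (s.scale s.t1⁻¹ m).p11 ^ 2 ^ e = dec z 0 := by
    rw [dec_zero]
    simp [St.scale, h1]
  have e7 : (s.scale s.t1⁻¹ m).t3 ^ 2 ^ e = dec z 0 := by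
    rw [dec_zero]
    simp [St.scale, h3]
  have e8 : (s.scale s.t1⁻¹ m).t1 ^ 2 ^ e = dec z 1 := by
    rw [dec_one]
    simp [St.scale, inv_mul_cancel₀ ht]
  obtain ⟨i, hi, i0, i1, i2, i3, i4⟩ := idx5 h0 h1' h2 h3' h4
  obtain ⟨t, hok⟩ := exB v tt hv htt
  have key := good_of_ok h (fun s i hs => Good.base (missV_false h i s hs)) hok i
    (one_B v tt i hi)
  convert key using 1
  have w0 : (vr 15 0).ev z i = dec z a0 := by rw [ev_vr (by norm_num) hi, i0]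
  have w1 : (vr 15 1).ev z i = dec z a1 := by rw [ev_vr (by norm_num) hi, i1]
  have w2 : (vr 15 2).ev z i = dec z a2 := by rw [ev_vr (by norm_num) hi, i2]
  have w3 : (vr 15 3).ev z i = dec z a3 := by rw [ev_vr (by norm_num) hi, i3]
  have w4 : (vr 15 4).ev z i = dec z a4 := by rw [ev_vr (by norm_num) hi, i4]
  simp only [S.ev, stB, w0, w1, w2, w3, w4, ev_cst hi, St.mk.injEq]
  exact ⟨e6, e0, e1, e2, e8, e3, e7, e5, he, e4⟩

theorem good_VB (hK : Nat.card K = 8) (h2 : (2 : K) = 0) (s : St K) (hs : s.VB) : Good s := by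
  have key : ∀ s : St K, s.p11 = 0 → (s.t1 = 0 ∨ s.t3 = 0) → Good s := by
    rintro s h1 (h | h)
    · exact Good.swap (good_B hK _ h1 h)
    · exact good_B hK s h1 h
  rcases hs with ⟨h1, h⟩ | ⟨h1, h⟩ | ⟨h1, h⟩ | ⟨h1, h⟩
  · exact key s h1 h
  · exact good_flipY h2 (key _ h1 h)
  · exact good_flipX h2 (key _ h1 h)
  · exact good_flipX h2 (good_flipY h2 (key _ h1 h))

theorem good_A (hK : Nat.card K = 8) (s : St K) (h1 : s.p11 = 0) : Good s := by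
  obtain ⟨z, h⟩ := exists_gen hK
  by_cases ht : s.t1 = 0
  · exact good_VB hK h.two s (Or.inl ⟨h1, Or.inl ht⟩)
  by_cases ht3 : s.t3 = 0
  · exact good_VB hK h.two s (Or.inl ⟨h1, Or.inr ht3⟩)
  refine good_of_scale (l := s.t1⁻¹) (m := s.t3⁻¹) (inv_ne_zero ht) (inv_ne_zero ht3) ?_
  obtain ⟨e, v, hv, he⟩ := frob_nf1 hK h (s.scale s.t1⁻¹ s.t3⁻¹)
  refine good_of_frob_iter hK h.two e ?_
  rw [frob_iter] at he ⊢
  obtain ⟨pp, hpp, ep⟩ := dec_surj hK h ((s.scale s.t1⁻¹ s.t3⁻¹).p12 ^ 2 ^ e)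
  obtain ⟨a0, h0, e0⟩ := dec_surj hK h ((s.scale s.t1⁻¹ s.t3⁻¹).p21 ^ 2 ^ e)
  obtain ⟨a1, h1', e1⟩ := dec_surj hK h ((s.scale s.t1⁻¹ s.t3⁻¹).p22 ^ 2 ^ e)
  obtain ⟨a2, h2, e2⟩ := dec_surj hK h ((s.scale s.t1⁻¹ s.t3⁻¹).t2 ^ 2 ^ e)
  obtain ⟨a3, h3', e3⟩ := dec_surj hK h ((s.scale s.t1⁻¹ s.t3⁻¹).t4 ^ 2 ^ e)
  obtain ⟨a4, h4, e4⟩ := dec_surj hK h ((s.scale s.t1⁻¹ s.t3⁻¹).s2 ^ 2 ^ e)
  have e6 : (s.scale s.t1⁻¹ s.t3⁻¹).p11 ^ 2 ^ e = dec z 0 := by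
    rw [dec_zero]
    simp [St.scale, h1]
  have e7 : (s.scale s.t1⁻¹ s.t3⁻¹).t3 ^ 2 ^ e = dec z 1 := by
    rw [dec_one]
    simp [St.scale, inv_mul_cancel₀ ht3]
  have e8 : (s.scale s.t1⁻¹ s.t3⁻¹).t1 ^ 2 ^ e = dec z 1 := by
    rw [dec_one]
    simp [St.scale, inv_mul_cancel₀ ht]
  obtain ⟨i, hi, i0, i1, i2, i3, i4⟩ := idx5 h0 h1' h2 h3' h4
  obtain ⟨t, hok⟩ := exA v pp hv hpp
  have key := good_of_ok h (fun s i hs => good_VB hK h.two _ (missB_false h i s hs)) hok i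
    (one_A v pp i hi)
  convert key using 1
  have w0 : (vr 15 0).ev z i = dec z a0 := by rw [ev_vr (by norm_num) hi, i0]
  have w1 : (vr 15 1).ev z i = dec z a1 := by rw [ev_vr (by norm_num) hi, i1]
  have w2 : (vr 15 2).ev z i = dec z a2 := by rw [ev_vr (by norm_num) hi, i2]
  have w3 : (vr 15 3).ev z i = dec z a3 := by rw [ev_vr (by norm_num) hi, i3]
  have w4 : (vr 15 4).ev z i = dec z a4 := by rw [ev_vr (by norm_num) hi, i4]
  simp only [S.ev, stA, w0, w1, w2, w3, w4, ev_cst hi, St.mk.injEq]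
  exact ⟨e6, ep, e0, e1, e8, e2, e7, e3, he, e4⟩

theorem good_VA (hK : Nat.card K = 8) (h2 : (2 : K) = 0) (s : St K) (hs : s.VA) : Good s := by
  rcases hs with h | h | h | h
  · exact good_A hK s h
  · exact good_flipY h2 (good_A hK _ h)
  · exact good_flipX h2 (good_A hK _ h)
  · exact good_flipX h2 (good_flipY h2 (good_A hK _ h))

/-- every state is good -/
theorem good_all (hK : Nat.card K = 8) (s : St K) : Good s := by
  obtain ⟨z, h⟩ := exists_gen hK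
  by_cases h1 : s.p11 = 0
  · exact good_VA hK h.two s (Or.inl h1)
  by_cases h2 : s.p12 = 0
  · exact good_VA hK h.two s (Or.inr (Or.inl h2))
  -- scaling: square roots are fourth powers
  have hl : s.p11 ^ 4 * s.p12 ^ 4 ≠ 0 := mul_ne_zero (pow_ne_zero 4 h1) (pow_ne_zero 4 h2)
  obtain ⟨l, m, hl0, hm0, e11, e12⟩ : ∃ l m : K, l ≠ 0 ∧ m ≠ 0 ∧ l * m * s.p11 = 1 ∧
      l * m⁻¹ * s.p12 = 1 := by
    refine ⟨(s.p11 ^ 4 * s.p12 ^ 4)⁻¹, s.p12 ^ 4 * (s.p11 ^ 4)⁻¹, inv_ne_zero hl,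
      mul_ne_zero (pow_ne_zero 4 h2) (inv_ne_zero (pow_ne_zero 4 h1)), ?_, ?_⟩
    · have h8 := pow8 hK s.p11
      have h7 : s.p11 ^ 7 = 1 := mul_left_cancel₀ h1 (by linear_combination h8)
      field_simp
      linear_combination -h7
    · have h8 := pow8 hK s.p12
      have h7 : s.p12 ^ 7 = 1 := mul_left_cancel₀ h2 (by linear_combination h8)
      field_simp
      linear_combination -h7
  refine good_of_scale (l := l) (m := m) hl0 hm0 ?_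
  obtain ⟨e, v, hv, he⟩ := frob_nf1 hK h (s.scale l m)
  refine good_of_frob_iter hK h.two e ?_
  rw [frob_iter] at he ⊢
  obtain ⟨a0, h0, e0⟩ := dec_surj hK h ((s.scale l m).p21 ^ 2 ^ e)
  obtain ⟨a1, h1', e1⟩ := dec_surj hK h ((s.scale l m).p22 ^ 2 ^ e)
  obtain ⟨a2, h2', e2⟩ := dec_surj hK h ((s.scale l m).t2 ^ 2 ^ e)
  obtain ⟨a3, h3', e3⟩ := dec_surj hK h ((s.scale l m).t4 ^ 2 ^ e)
  obtain ⟨a4, h4, e4⟩ := dec_surj hK h ((s.scale l m).s2 ^ 2 ^ e)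
  obtain ⟨b1, hb1, e5⟩ := dec_surj hK h ((s.scale l m).t1 ^ 2 ^ e)
  obtain ⟨b3, hb3, e6⟩ := dec_surj hK h ((s.scale l m).t3 ^ 2 ^ e)
  have e7 : (s.scale l m).p11 ^ 2 ^ e = dec z 1 := by
    rw [dec_one]
    simp [St.scale, e11]
  have e8 : (s.scale l m).p12 ^ 2 ^ e = dec z 1 := by
    rw [dec_one]
    simp [St.scale, e12]
  obtain ⟨i, hi, i0, i1, i2, i3, i4⟩ := idx5 h0 h1' h2' h3' h4
  obtain ⟨t, hok⟩ := exO v b1 b3 hv hb1 hb3
  have key := good_of_ok h (fun s i hs => good_VA hK h.two _ (missA_false h i s hs)) hok i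
    (one_O v b1 b3 i hi)
  convert key using 1
  have w0 : (vr 15 0).ev z i = dec z a0 := by rw [ev_vr (by norm_num) hi, i0]
  have w1 : (vr 15 1).ev z i = dec z a1 := by rw [ev_vr (by norm_num) hi, i1]
  have w2 : (vr 15 2).ev z i = dec z a2 := by rw [ev_vr (by norm_num) hi, i2]
  have w3 : (vr 15 3).ev z i = dec z a3 := by rw [ev_vr (by norm_num) hi, i3]
  have w4 : (vr 15 4).ev z i = dec z a4 := by rw [ev_vr (by norm_num) hi, i4]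
  simp only [S.ev, stO, w0, w1, w2, w3, w4, ev_cst hi, St.mk.injEq]
  exact ⟨e7, e8, e0, e1, e5, e2, e6, e3, he, e4⟩

end Pool.Agent.H27.Q8
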