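import Mathlib

/-!
# q = 8: the map on the ten invariants of two hyperbolic pairs (helper27, MP_a408f4_al)

State of two hyperbolic pairs `X = (x, x⁻)`, `Y = (y, y⁻)` (char 2, `g(x,x⁻) = g(y,y⁻) = 1`,
`h_X = [x,x⁻]`):
`p11 = g(x,y)`, `p12 = g(x,y⁻)`, `p21 = g(x⁻,y)`, `p22 = g(x⁻,y⁻)`, `t1 = g(x,h_Y)`,
`t2 = g(x⁻,h_Y)`, `t3 = g(y,h_X)`, `t4 = g(y⁻,h_X)`, `s1 = g(h_X,h_Y)`, `s2 = g([x,y],[x⁻,y⁻])`.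
`St.step c` is the state of `(Y, h_X(c) Y)`.
-/

namespace Pool.Agent.H27.Q8

/-- the ten invariants -/
@[ext] structure St (K : Type) where
  p11 : K
  p12 : K
  p21 : K
  p22 : K
  t1 : K
  t2 : K
  t3 : K
  t4 : K
  s1 : K
  s2 : K

variable {K : Type} [Field K]

namespace St

/-- the invariants of `(Y, h_X(c) Y)` -/
def step (c : K) (s : St K) : St K where
  p11 := (c + c⁻¹) ^ 2 * (s.p11 * s.p21) + (c + c⁻¹) * s.t3 ^ 2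
  p12 := 1 + (c + c⁻¹) * (s.s2 + s.t3 * s.t4) + (c⁻¹ + 1) * s.s1 + (c + 1) ^ 2 * (s.p11 * s.p22) +
    (c⁻¹ + 1) ^ 2 * (s.p12 * s.p21)
  p21 := 1 + (c + c⁻¹) * (s.s2 + s.t3 * s.t4) + (c + 1) * s.s1 + (c + 1) ^ 2 * (s.p12 * s.p21) +
    (c⁻¹ + 1) ^ 2 * (s.p11 * s.p22)
  p22 := (c + c⁻¹) ^ 2 * (s.p12 * s.p22) + (c + c⁻¹) * s.t4 ^ 2
  t1 := (c + c⁻¹) * (s.t2 * s.p11 + s.t1 * s.p21 + s.t3 + s.t3 * s.s1) +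
    (c + 1) ^ 2 * (s.t2 * s.p11) + (c⁻¹ + 1) ^ 2 * (s.t1 * s.p21)
  t2 := (c + c⁻¹) * (s.t2 * s.p12 + s.t1 * s.p22 + s.t4 + s.t4 * s.s1) +
    (c + 1) ^ 2 * (s.t2 * s.p12) + (c⁻¹ + 1) ^ 2 * (s.t1 * s.p22)
  t3 := (c + c⁻¹) * (s.t2 * s.p11 + s.t1 * s.p21 + s.t3 + s.t3 * s.s1) +
    (c⁻¹ + 1) ^ 2 * (s.t2 * s.p11) + (c + 1) ^ 2 * (s.t1 * s.p21)
  t4 := (c + c⁻¹) * (s.t2 * s.p12 + s.t1 * s.p22 + s.t4 + s.t4 * s.s1) +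
    (c⁻¹ + 1) ^ 2 * (s.t2 * s.p12) + (c + 1) ^ 2 * (s.t1 * s.p22)
  s1 := (c + c⁻¹) * (s.s1 + s.s1 ^ 2) + (c + c⁻¹) ^ 2 * (s.t1 * s.t2)
  s2 := (c + c⁻¹) ^ 2 * (s.t3 * s.t4 * (1 + s.s1)) + (c + c⁻¹) ^ 3 *
    ((s.t3 * s.p12 + s.t4 * s.p11) * (s.t3 * s.p22 + s.t4 * s.p21) +
      s.p12 * s.p21 * s.s2 + s.p11 * s.p22 * (s.s1 + s.s2))

/-- interchange of the two pairs -/
def swap (s : St K) : St K := ⟨s.p11, s.p21, s.p12, s.p22, s.t3, s.t4, s.t1, s.t2, s.s1, s.s2⟩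

/-- interchange of `x` and `x⁻` -/
def flipX (s : St K) : St K :=
  ⟨s.p21, s.p22, s.p11, s.p12, s.t2, s.t1, s.t3, s.t4, s.s1, s.s1 + s.s2⟩

/-- interchange of `y` and `y⁻` -/
def flipY (s : St K) : St K :=
  ⟨s.p12, s.p11, s.p22, s.p21, s.t1, s.t2, s.t4, s.t3, s.s1, s.s1 + s.s2⟩

/-- scaling: `x ↦ l x`, `x⁻ ↦ l⁻¹ x⁻`, `y ↦ m y`, `y⁻ ↦ m⁻¹ y⁻` -/
def scale (l m : K) (s : St K) : St K :=
  ⟨l * m * s.p11, l * m⁻¹ * s.p12, l⁻¹ * m * s.p21, l⁻¹ * m⁻¹ * s.p22, l * s.t1, l⁻¹ * s.t2,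
    m * s.t3, m⁻¹ * s.t4, s.s1, s.s2⟩

/-- the Frobenius automorphism -/
def frob (s : St K) : St K :=
  ⟨s.p11 ^ 2, s.p12 ^ 2, s.p21 ^ 2, s.p22 ^ 2, s.t1 ^ 2, s.t2 ^ 2, s.t3 ^ 2, s.t4 ^ 2, s.s1 ^ 2,
    s.s2 ^ 2⟩

/-- the target: two elements which are not opposite, and whose middle point is not moved -/
def V (s : St K) : Prop :=
  (s.p11 = 0 ∧ s.t1 = 0 ∧ s.t3 = 0) ∨ (s.p12 = 0 ∧ s.t1 = 0 ∧ s.t4 = 0) ∨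
    (s.p21 = 0 ∧ s.t2 = 0 ∧ s.t3 = 0) ∨ (s.p22 = 0 ∧ s.t2 = 0 ∧ s.t4 = 0)

/-- not opposite, and at most one of the two tori moves the middle point -/
def VB (s : St K) : Prop :=
  (s.p11 = 0 ∧ (s.t1 = 0 ∨ s.t3 = 0)) ∨ (s.p12 = 0 ∧ (s.t1 = 0 ∨ s.t4 = 0)) ∨
    (s.p21 = 0 ∧ (s.t2 = 0 ∨ s.t3 = 0)) ∨ (s.p22 = 0 ∧ (s.t2 = 0 ∨ s.t4 = 0))

/-- not opposite -/
def VA (s : St K) : Prop := s.p11 = 0 ∨ s.p12 = 0 ∨ s.p21 = 0 ∨ s.p22 = 0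

end St

/-- states from which a word of steps leads into the target set -/
inductive Good : St K → Prop
  | base {s : St K} : s.V → Good s
  | step {s : St K} (c : K) : c ≠ 0 → c ≠ 1 → Good (s.step c) → Good s
  | swap {s : St K} : Good s.swap → Good s

end Pool.Agent.H27.Q8
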