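import Pool.Agent.H26.E2.LB
import Pool.Agent.H27.Q8.St

/-!
# The invariants of `(Y, h_X(c) Y)`
-/

namespace Pool.Agent.H27.Q8

open Pool.Agent.H26.E2

variable {K L : Type} [Field K] [AddCommGroup L] [Module K L]
variable {br : L →ₗ[K] L →ₗ[K] L} {B : L →ₗ[K] L →ₗ[K] K}

/-- the state of two pairs -/
def stOf (br : L →ₗ[K] L →ₗ[K] L) (B : L →ₗ[K] L →ₗ[K] K) (v w v' w' : L) : St K :=
  ⟨B v v', B v w', B w v', B w w', B v (br v' w'), B w (br v' w'), B v' (br v w), B w' (br v w),
    B (br v w) (br v' w'), B (br v v') (br w w')⟩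

/-- `[k,[k,a]] = [k,a]` -/
theorem kk (H : LB br B) {y z : L} (Q : Pair2 br B y z) (a : L) :
    br (br y z) (br (br y z) a) = br (br y z) a := by
  have j : ∀ b, br (br y z) b = br y (br z b) + br z (br y b) := fun b => H.jac y z b
  have h0 : br y (br z y) = 0 := by rw [H.symm z y, Q.ev.p0]
  have h0' : br z (br y z) = 0 := by rw [H.symm y z, Q.ew.p0]
  have h1 : br y (br z (br (br y z) a)) = B z (br y a) • br y z + br y (br z a) := by
    rw [j a, map_add, Q.ew.p0, add_zero, Q.ew.p2 a y, map_add, map_add, map_smul, map_smul,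
      map_smul, h0, smul_zero, add_zero, H.bsymm z y, Q.one, one_smul]
  have h2 : br z (br y (br (br y z) a)) = B y (br z a) • br y z + br z (br y a) := by
    rw [j a, map_add, Q.ev.p0, zero_add, Q.ev.p2 a z, map_add, map_add, map_smul, map_smul,
      map_smul, h0', smul_zero, add_zero, Q.one, one_smul, H.symm z y]
  rw [j (br (br y z) a), h1, h2, H.inv' z y a, j a]
  have h3 := H.add_self (B y (br z a) • br y z)
  calc B y (br z a) • br y z + br y (br z a) + (B y (br z a) • br y z + br z (br y a))
      = (B y (br z a) • br y z + B y (br z a) • br y z) + (br y (br z a) + br z (br y a)) := by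
        abel
    _ = _ := by rw [h3, zero_add]

/-- `g([a,y],[b,y]) = 0` -/
theorem n0 (H : LB br B) {y : L} (E : Ext2 br B y) (a b : L) : B (br a y) (br b y) = 0 := by
  rw [H.inv, H.symm b y, E.p0, map_zero]

/-- `g([a,y],[b,k])` -/
theorem n1 (H : LB br B) {y z : L} (Q : Pair2 br B y z) (a b : L) :
    B (br a y) (br b (br y z)) = B b (br y z) * B a y + B (br a b) y + B b y * B a (br y z) := by
  have h1 : br b (br y z) = br y (br b z) + br z (br b y) := by
    rw [H.symm b (br y z), H.jac, H.symm z b, H.symm y b]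
  rw [H.inv, h1, map_add, Q.ev.p0, zero_add, H.symm b y, Q.ev.p2 b z, map_add, map_add, map_smul,
    map_smul, map_smul, smul_eq_mul, smul_eq_mul, smul_eq_mul, Q.one, one_mul, H.symm y b,
    ← H.inv a b y, ← H.inv y z b, H.bsymm (br y z) b, H.bsymm y b]

/-- `g([a,k],[b,k])` -/
theorem n2 (H : LB br B) {y z : L} (Q : Pair2 br B y z) (a b : L) :
    B (br a (br y z)) (br b (br y z)) = B (br a b) (br y z) := by
  rw [H.inv, H.symm b (br y z), kk H Q, H.symm (br y z) b, H.inv]

/-- `g([a,y],[b,z]) + g([a,z],[b,y])` -/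
theorem n3 (H : LB br B) (y z a b : L) :
    B (br a z) (br b y) = B (br a y) (br b z) + B (br a b) (br y z) := by
  have h1 : br z (br b y) = br y (br b z) + br b (br y z) := by
    have h := H.jac b y z
    rw [H.symm z (br b y), h, add_comm]
  rw [H.inv, h1, map_add, ← H.inv a y (br b z), ← H.inv a b (br y z)]

/-- the form and the torus element -/
theorem B_tr (H : LB br B) (v w : L) (c : K) (a b : L) :
    B a (tr br B v w c b) = B a b + (c ^ 2 + 1) * (B w b * B a v)
      + (c⁻¹ ^ 2 + 1) * (B v b * B a w)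
      + (c + 1) * (B (br v a) (br w b) + B b (br v w) * B a (br v w))
      + (c⁻¹ + 1) * (B (br v b) (br w a) + B b (br v w) * B a (br v w)) := by
  have h1 : B a (br v (br w b)) = B (br v a) (br w b) := by rw [← H.inv, H.symm a v]
  have h2 : B a (br w (br v b)) = B (br v b) (br w a) := by
    rw [← H.inv, H.symm a w, H.bsymm]
  unfold tr
  rw [map_add, map_add, map_add, map_add, map_smul, map_smul, map_smul, map_smul, map_add,
    map_add, map_smul, h1, h2, H.bsymm (br v w) b]
  simp only [smul_eq_mul]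
  ring

/-- `[y, h_X(c) y]` -/
theorem br_tr (H : LB br B) {v w y : L} (E : Ext2 br B y) (c : K) :
    br y (tr br B v w c y) = ((c + c⁻¹) * B y (br v w)) • (y + br y (br v w))
      + (B w y * (c ^ 2 + 1 + (c + c⁻¹))) • br y v + (B v y * (c⁻¹ ^ 2 + 1 + (c + c⁻¹))) • br y w := by
  have h1 : br y (br v (br w y)) = B y (br v w) • y + B y v • br y w + B y w • br y v := by
    rw [H.symm w y, E.p2 w v]
  have h2 : br y (br w (br v y)) = B y (br v w) • y + B y w • br y v + B y v • br y w := by
    rw [H.symm v y, E.p2 v w, H.symm w v]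
  have h3 : (c + 1 : K) + (c⁻¹ + 1) = c + c⁻¹ := by linear_combination H.two
  unfold tr
  rw [map_add, map_add, map_add, map_add, map_smul, map_smul, map_smul, map_smul, map_add,
    map_add, map_smul, h1, h2, H.alt y, H.bsymm (br v w) y, H.bsymm w y, H.bsymm v y, ← h3]
  module

theorem exp6 (B : L →ₗ[K] L →ₗ[K] K) (Y A C Z D E : L) (a b g a' b' g' : K) :
    B (a • Y + b • A + g • C) (a' • Z + b' • D + g' • E) =
      a * a' * B Y Z + a * b' * B Y D + a * g' * B Y E + b * a' * B A Z + b * b' * B A D
        + b * g' * B A E + g * a' * B C Z + g * b' * B C D + g * g' * B C E := by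
  simp only [map_add, map_smul, LinearMap.add_apply, LinearMap.smul_apply, smul_eq_mul]
  ring

/-- the invariants of `(Y, h_X(c) Y)` -/
theorem stOf_step (H : LB br B) {v w v' w' : L} (P : Pair2 br B v w) (P' : Pair2 br B v' w')
    {c : K} (hc : c ≠ 0) (hbr : br (tr br B v w c v') (tr br B v w c w') = tr br B v w c (br v' w')) :
    stOf br B v' w' (tr br B v w c v') (tr br B v w c w') = (stOf br B v w v' w').step c := by
  have h2 := H.two
  have hk : br w' v' = br v' w' := H.symm _ _
  have hh : br w v = br v w := H.symm _ _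
  -- the pairings
  have a1 : B v' w' = 1 := P'.one
  have a2 : B w' v' = 1 := by rw [H.bsymm, P'.one]
  have k1 : B v' (br v' w') = 0 := by rw [← H.inv, H.alt, map_zero, LinearMap.zero_apply]
  have k2 : B w' (br v' w') = 0 := by rw [H.bsymm, H.inv, H.alt, map_zero]
  have k1' : B (br v' w') v' = 0 := by rw [H.bsymm, k1]
  have k2' : B (br v' w') w' = 0 := by rw [H.bsymm, k2]
  have s1 : B (br v' w') (br v w) = B (br v w) (br v' w') := H.bsymm _ _
  have c1 : B v' v = B v v' := H.bsymm _ _
  have c2 : B w' v = B v w' := H.bsymm _ _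
  have c3 : B v' w = B w v' := H.bsymm _ _
  have c4 : B w' w = B w w' := H.bsymm _ _
  have c5 : B (br v' w') v = B v (br v' w') := H.bsymm _ _
  have c6 : B (br v' w') w = B w (br v' w') := H.bsymm _ _
  have c7 : B (br v w) v' = B v' (br v w) := H.bsymm _ _
  have c8 : B (br v w) w' = B w' (br v w) := H.bsymm _ _
  have n11 : B (br v v') (br w v') = 0 := n0 H P'.ev v w
  have n22 : B (br v w') (br w w') = 0 := n0 H P'.ew v w
  have n21 : B (br v w') (br w v') = B (br v v') (br w w') + B (br v w) (br v' w') :=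
    n3 H v' w' v w
  have n10 : B (br v v') (br w (br v' w')) = B w (br v' w') * B v v' + B v' (br v w)
      + B w v' * B v (br v' w') := by rw [n1 H P' v w, c7]
  have n01 : B (br v (br v' w')) (br w v') = B v (br v' w') * B w v' + B v' (br v w)
      + B v v' * B w (br v' w') := by rw [H.bsymm, n1 H P' w v, hh, c7]
  have n20 : B (br v w') (br w (br v' w')) = B w (br v' w') * B v w' + B w' (br v w)
      + B w w' * B v (br v' w') := by
    have := n1 H (Pair2.swap H P') v w
    rw [hk, c8] at this
    exact this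
  have n02 : B (br v (br v' w')) (br w w') = B v (br v' w') * B w w' + B w' (br v w)
      + B v w' * B w (br v' w') := by
    have := n1 H (Pair2.swap H P') w v
    rw [hk, hh, c8] at this
    rw [H.bsymm]
    exact this
  have n00 : B (br v (br v' w')) (br w (br v' w')) = B (br v w) (br v' w') := n2 H P' v w
  have key : ∀ a b, B (br w a) (br v b) = B (br v b) (br w a) := fun a b => H.bsymm _ _
  have bal : B (br v' w') (br v' w') = 0 := H.balt _
  have z1 : B (tr br B v w c v') (br v' w') = B (br v' w') (tr br B v w c v') := H.bsymm _ _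
  have z2 : B (tr br B v w c w') (br v' w') = B (br v' w') (tr br B v w c w') := H.bsymm _ _
  ext
  · simp only [stOf, St.step, hbr, z1, z2, B_tr H, n11, n22, n21, n10, n01, n20, n02, n00, k1, k2, k1', k2', bal,
      H.balt, a1, a2, s1, c1, c2, c3, c4, c5, c6]
    linear_combination (1 * (B v' (br v w)) ^ 2 + 1 * B v v' * B w v' + (-1 * c * c⁻¹ * B v v' * B w v')) * h2
  · simp only [stOf, St.step, hbr, z1, z2, B_tr H, n11, n22, n21, n10, n01, n20, n02, n00, k1, k2, k1', k2', bal,
      H.balt, a1, a2, s1, c1, c2, c3, c4, c5, c6]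
    linear_combination (1 * B (br v v') (br w w') + 1 * B v' (br v w) * B w' (br v w) + (-1 * c⁻¹ * B v w' * B w
      v') + (-1 * c * B v v' * B w w')) * h2
  · simp only [stOf, St.step, hbr, z1, z2, B_tr H, n11, n22, n21, n10, n01, n20, n02, n00, k1, k2, k1', k2', bal,
      H.balt, a1, a2, s1, c1, c2, c3, c4, c5, c6]
    linear_combination (1 * B (br v v') (br w w') + 1 * B v' (br v w) * B w' (br v w) + (-1 * c⁻¹ * B v v' * B w
      w') + (-1 * c * B v w' * B w v')) * h2
  · simp only [stOf, St.step, hbr, z1, z2, B_tr H, n11, n22, n21, n10, n01, n20, n02, n00, k1, k2, k1', k2', bal,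
      H.balt, a1, a2, s1, c1, c2, c3, c4, c5, c6]
    linear_combination (1 * (B w' (br v w)) ^ 2 + 1 * B v w' * B w w' + (-1 * c * c⁻¹ * B v w' * B w w')) * h2
  · simp only [stOf, St.step, hbr, z1, z2, B_tr H, n11, n22, n21, n10, n01, n20, n02, n00, k1, k2, k1', k2', bal,
      H.balt, a1, a2, s1, c1, c2, c3, c4, c5, c6]
    linear_combination (1 * B v' (br v w) + 1 * B v' (br v w) * B (br v w) (br v' w') + 1 * B w v' * B v (br v'
      w') + 1 * B v v' * B w (br v' w') + (-1 * c⁻¹ * B w v' * B v (br v' w')) + (-1 * c * B v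
      v' * B w (br v' w'))) * h2
  · simp only [stOf, St.step, hbr, z1, z2, B_tr H, n11, n22, n21, n10, n01, n20, n02, n00, k1, k2, k1', k2', bal,
      H.balt, a1, a2, s1, c1, c2, c3, c4, c5, c6]
    linear_combination (1 * B w' (br v w) + 1 * B w' (br v w) * B (br v w) (br v' w') + 1 * B w w' * B v (br v'
      w') + 1 * B v w' * B w (br v' w') + (-1 * c⁻¹ * B w w' * B v (br v' w')) + (-1 * c * B v
      w' * B w (br v' w'))) * h2
  · simp only [stOf, St.step, hbr, z1, z2, B_tr H, n11, n22, n21, n10, n01, n20, n02, n00, k1, k2, k1', k2', bal,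
      H.balt, a1, a2, s1, c1, c2, c3, c4, c5, c6]
    linear_combination (1 * B v' (br v w) + 1 * B v' (br v w) * B (br v w) (br v' w') + 1 * B w v' * B v (br v'
      w') + 1 * B v v' * B w (br v' w') + (-1 * c⁻¹ * B v v' * B w (br v' w')) + (-1 * c * B w
      v' * B v (br v' w'))) * h2
  · simp only [stOf, St.step, hbr, z1, z2, B_tr H, n11, n22, n21, n10, n01, n20, n02, n00, k1, k2, k1', k2', bal,
      H.balt, a1, a2, s1, c1, c2, c3, c4, c5, c6]
    linear_combination (1 * B w' (br v w) + 1 * B w' (br v w) * B (br v w) (br v' w') + 1 * B w w' * B v (br v'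
      w') + 1 * B v w' * B w (br v' w') + (-1 * c⁻¹ * B v w' * B w (br v' w')) + (-1 * c * B w
      w' * B v (br v' w'))) * h2
  · simp only [stOf, St.step, hbr, z1, z2, B_tr H, n11, n22, n21, n10, n01, n20, n02, n00, k1, k2, k1', k2', bal,
      H.balt, a1, a2, s1, c1, c2, c3, c4, c5, c6]
    linear_combination (1 * B (br v w) (br v' w') + 1 * (B (br v w) (br v' w')) ^ 2 + 1 * B v (br v' w') * B w
      (br v' w') + (-1 * c * c⁻¹ * B v (br v' w') * B w (br v' w'))) * h2
  · have hb1 : B (v' + br v' (br v w)) (w' + br w' (br v w)) = 1 + B (br v w) (br v' w') := by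
      have e1 : B v' (br w' (br v w)) = B (br v w) (br v' w') := by
        rw [← H.inv, H.bsymm]
      have e2 : B (br v' (br v w)) w' = B (br v w) (br v' w') := by
        rw [H.symm v', H.inv]
      have e3 : B (br v' (br v w)) (br w' (br v w)) = B (br v w) (br v' w') := by
        rw [n2 H P v' w', H.bsymm]
      rw [map_add, LinearMap.map_add₂, LinearMap.map_add₂, a1, e1, e2, e3]
      linear_combination (B (br v w) (br v' w')) * h2
    have f1 : B v' (br w' v) = B v (br v' w') := by rw [← H.inv, c5]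
    have f2 : B v' (br w' w) = B w (br v' w') := by rw [← H.inv, c6]
    have f3 : B (br v' v) w' = B v (br v' w') := by rw [H.symm v' v, H.inv]
    have f4 : B (br v' w) w' = B w (br v' w') := by rw [H.symm v' w, H.inv]
    have g1 : B (br w' v) (br v' (br v w)) = B v' (br v w) * B v w' + B v (br v' w')
        + B v v' * B w' (br v w) := by rw [n1 H P w' v', hk, c2, c5, c1]
    have g2 : B (br w' w) (br v' (br v w)) = B v' (br v w) * B w w' + B w (br v' w')
        + B w v' * B w' (br v w) := by
      have := n1 H (Pair2.swap H P) w' v'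
      rw [hh, hk, c4, c6, c3] at this
      exact this
    have g3 : B (br v' v) (br w' (br v w)) = B w' (br v w) * B v v' + B v (br v' w')
        + B v w' * B v' (br v w) := by rw [n1 H P v' w', c1, c5, c2]
    have g4 : B (br v' w) (br w' (br v w)) = B w' (br v w) * B w v' + B w (br v' w')
        + B w w' * B v' (br v w) := by
      have := n1 H (Pair2.swap H P) v' w'
      rw [hh, c3, c6, c4] at this
      exact this
    have hb2 : B (v' + br v' (br v w)) (br w' v) =
        B v' (br v w) * B v w' + B w' (br v w) * B v v' := by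
      rw [LinearMap.map_add₂, f1, H.bsymm (br v' (br v w)), g1]
      linear_combination (B v (br v' w')) * h2
    have hb3 : B (v' + br v' (br v w)) (br w' w) =
        B v' (br v w) * B w w' + B w' (br v w) * B w v' := by
      rw [LinearMap.map_add₂, f2, H.bsymm (br v' (br v w)), g2]
      linear_combination (B w (br v' w')) * h2
    have hb4 : B (br v' v) (w' + br w' (br v w)) =
        B v' (br v w) * B v w' + B w' (br v w) * B v v' := by
      rw [map_add, f3, g3]
      linear_combination (B v (br v' w')) * h2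
    have hb5 : B (br v' w) (w' + br w' (br v w)) =
        B v' (br v w) * B w w' + B w' (br v w) * B w v' := by
      rw [map_add, f4, g4]
      linear_combination (B w (br v' w')) * h2
    have hb6 : B (br v' v) (br w' v) = 0 := n0 H P.ev v' w'
    have hb7 : B (br v' w) (br w' w) = 0 := n0 H P.ew v' w'
    have hb8 : B (br v' v) (br w' w) = B (br v v') (br w w') := by
      rw [H.symm v' v, H.symm w' w]
    have hb9 : B (br v' w) (br w' v) = B (br v v') (br w w') + B (br v w) (br v' w') := by
      rw [H.symm v' w, H.symm w' v, H.bsymm, n21]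
    have hc' : c * c⁻¹ = 1 := mul_inv_cancel₀ hc
    simp only [stOf, St.step, br_tr H P'.ev, br_tr H P'.ew]
    rw [exp6, hb1, hb2, hb3, hb4, hb5, hb6, hb7, hb8, hb9]
    linear_combination
      (2 * B v w' * B w w' * (B v' (br v w)) ^ 2 + 2 * B v w' * B w v' * B (br v v') (br w
        w') + 2 * B v w' * B w v' * B v' (br v w) * B w' (br v w) + 2 * B v v' * B w w' * B
        (br v v') (br w w') + 2 * B v v' * B w w' * B (br v w) (br v' w') + 2 * B v v' * B w
        w' * B v' (br v w) * B w' (br v w) + 2 * B v v' * B w v' * (B w' (br v w)) ^ 2 + 1 *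
        (c⁻¹) ^ 2 * B v w' * B w w' * (B v' (br v w)) ^ 2 + 1 * (c⁻¹) ^ 2 * B v w' * B w v' *
        B (br v v') (br w w') + 1 * (c⁻¹) ^ 2 * B v w' * B w v' * B v' (br v w) * B w' (br v
        w) + 1 * (c⁻¹) ^ 2 * B v v' * B w w' * B (br v v') (br w w') + 1 * (c⁻¹) ^ 2 * B v v'
        * B w w' * B (br v w) (br v' w') + 1 * (c⁻¹) ^ 2 * B v v' * B w w' * B v' (br v w) * B
        w' (br v w) + 1 * (c⁻¹) ^ 2 * B v v' * B w v' * (B w' (br v w)) ^ 2 + 1 * (c) ^ 2 * B
        v w' * B w w' * (B v' (br v w)) ^ 2 + 1 * (c) ^ 2 * B v w' * B w v' * B (br v v') (br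
        w w') + 1 * (c) ^ 2 * B v w' * B w v' * B v' (br v w) * B w' (br v w) + 1 * (c) ^ 2 *
        B v v' * B w w' * B (br v v') (br w w') + 1 * (c) ^ 2 * B v v' * B w w' * B (br v w)
        (br v' w') + 1 * (c) ^ 2 * B v v' * B w w' * B v' (br v w) * B w' (br v w) + 1 * (c) ^
        2 * B v v' * B w v' * (B w' (br v w)) ^ 2) * h2 +
      (4 * B v w' * B w w' * (B v' (br v w)) ^ 2 + 3 * B v w' * B w v' * B (br v v') (br w
        w') + 4 * B v w' * B w v' * B v' (br v w) * B w' (br v w) + 3 * B v v' * B w w' * B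
        (br v v') (br w w') + 3 * B v v' * B w w' * B (br v w) (br v' w') + 4 * B v v' * B w
        w' * B v' (br v w) * B w' (br v w) + 4 * B v v' * B w v' * (B w' (br v w)) ^ 2 + (-2 *
        c⁻¹ * B v w' * B w w' * (B v' (br v w)) ^ 2) + (-2 * c⁻¹ * B v w' * B w v' * B (br v
        v') (br w w')) + (-2 * c⁻¹ * B v w' * B w v' * B v' (br v w) * B w' (br v w)) + (-2 *
        c⁻¹ * B v v' * B w w' * B (br v v') (br w w')) + (-2 * c⁻¹ * B v v' * B w w' * B (br v
        w) (br v' w')) + (-2 * c⁻¹ * B v v' * B w w' * B v' (br v w) * B w' (br v w)) + (-2 *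
        c⁻¹ * B v v' * B w v' * (B w' (br v w)) ^ 2) + (-2 * c * B v w' * B w w' * (B v' (br v
        w)) ^ 2) + (-2 * c * B v w' * B w v' * B (br v v') (br w w')) + (-2 * c * B v w' * B w
        v' * B v' (br v w) * B w' (br v w)) + (-2 * c * B v v' * B w w' * B (br v v') (br w
        w')) + (-2 * c * B v v' * B w w' * B (br v w) (br v' w')) + (-2 * c * B v v' * B w w'
        * B v' (br v w) * B w' (br v w)) + (-2 * c * B v v' * B w v' * (B w' (br v w)) ^ 2) +
        1 * c * c⁻¹ * B v w' * B w v' * B (br v v') (br w w') + 1 * c * c⁻¹ * B v v' * B w w'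
        * B (br v v') (br w w') + 1 * c * c⁻¹ * B v v' * B w w' * B (br v w) (br v' w')) * hc'

end Pool.Agent.H27.Q8
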