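import Pool.Agent.H26.E2.FPS
import Pool.Agent.H27.Q8.Main
import Pool.Agent.H27.Q8.RcL

/-!
# All tori of a system of pairs commute

From the table `good_all` and the base case `ff`.
-/

namespace Pool.Agent.H27.Q8

open Pool.Agent.H26.E2

variable {K L : Type} [Field K] [AddCommGroup L] [Module K L]
variable {br : L →ₗ[K] L →ₗ[K] L} {B : L →ₗ[K] L →ₗ[K] K} {F : Subgroup (L ≃ₗ[K] L)}
  {FP : L → L → Prop}

theorem stOf_swap (H : LB br B) (v w v' w' : L) :
    (stOf br B v w v' w').swap = stOf br B v' w' v w := by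
  ext <;> simp only [stOf, St.swap]
  · exact H.bsymm _ _
  · exact H.bsymm _ _
  · exact H.bsymm _ _
  · exact H.bsymm _ _
  · exact H.bsymm _ _
  · rw [H.symm v v', H.symm w w']

/-- the base case with the four interchanges -/
theorem cm_V (A : FPS br B F FP)
    (ff : ∀ v w v' w', FP v w → FP v' w' → B v v' = 0 → B (br v w) v' = 0 →
      B (br v' w') v = 0 → Cm br B v w v' w')
    {v w v' w' : L} (h : FP v w) (h' : FP v' w') (hV : (stOf br B v w v' w').V) :
    Cm br B v w v' w' := by
  have H := A.lb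
  have e1 : br w v = br v w := H.symm _ _
  have e2 : br w' v' = br v' w' := H.symm _ _
  rcases hV with ⟨a, b, c⟩ | ⟨a, b, c⟩ | ⟨a, b, c⟩ | ⟨a, b, c⟩
  · exact ff v w v' w' h h' a (by rw [H.bsymm]; exact c) (by rw [H.bsymm]; exact b)
  · refine Cm.symm (Cm.swap A (A.sw _ _ h') h (Cm.symm ?_))
    exact ff v w w' v' h (A.sw _ _ h') a (by rw [H.bsymm]; exact c) (by rw [e2, H.bsymm]; exact b)
  · refine Cm.swap A (A.sw _ _ h) h' ?_
    exact ff w v v' w' (A.sw _ _ h) h' a (by rw [e1, H.bsymm]; exact c) (by rw [H.bsymm]; exact b)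
  · refine Cm.swap A (A.sw _ _ h) h' (Cm.symm (Cm.swap A (A.sw _ _ h') (A.sw _ _ h) (Cm.symm ?_)))
    exact ff w v w' v' (A.sw _ _ h) (A.sw _ _ h') a (by rw [e1, H.bsymm]; exact c)
      (by rw [e2, H.bsymm]; exact b)

/-- all tori commute -/
theorem cm_all (A : FPS br B F FP)
    (ff : ∀ v w v' w', FP v w → FP v' w' → B v v' = 0 → B (br v w) v' = 0 →
      B (br v' w') v = 0 → Cm br B v w v' w')
    {v w v' w' : L} (h : FP v w) (h' : FP v' w') : Cm br B v w v' w' := by
  have key : ∀ s : St K, Good s → ∀ v w v' w' : L, FP v w → FP v' w' →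
      stOf br B v w v' w' = s → Cm br B v w v' w' := by
    intro s hs
    induction hs with
    | base hV =>
      intro v w v' w' h h' e
      subst e
      exact cm_V A ff h h' hV
    | @step s c h0 h1 _ ih =>
      intro v w v' w' h h' e
      subst e
      obtain ⟨t, ht, ht'⟩ := A.tor v w h c h0
      have hp : FP (tr br B v w c v') (tr br B v w c w') := by
        rw [← ht', ← ht']
        exact A.mv t ht _ _ h'
      have hbr : br (tr br B v w c v') (tr br B v w c w') = tr br B v w c (br v' w') := by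
        rw [← ht', ← ht', ← ht', (A.aut t ht).1]
      have e := stOf_step A.lb (A.pair _ _ h) (A.pair _ _ h') h0 hbr
      exact Cm.symm (A.com1 v' w' v w h' h c h0 h1 (ih _ _ _ _ h' hp e))
    | swap _ ih =>
      intro v w v' w' h h' e
      subst e
      exact Cm.symm (ih _ _ _ _ h' h (stOf_swap A.lb v w v' w').symm)
  exact key _ (good_all A.card _) _ _ _ _ h h' rfl

end Pool.Agent.H27.Q8
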