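import Pool.Agent.H27.Q8.ChkDefs

/-!
# Stage A, p12 = 2, 3 (generated)
-/

namespace Pool.Agent.H27.Q8.ChkA1

open C

/-- word tree -/
def t0 : T :=
  (w z2 (w z2 (u z2 n (w z2 n n)) (w z1 n (w z3 (w z3 n (u z2 n (u z1 n (w z2 n (w z1 n (u z3 n
    n)))))) (u z1 n (u z2 (w z2 n (u z3 n (w z3 n (u z2 (w z3 n (u z3 n (u z2 n (w z1 n (w z2 n (u
    z1 n n)))))) (u z1 n (w z1 n n)))))) (u z3 n n)))))) (u z1 (w z2 n (u z1 n (w z3 n (u z3 n (u z2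
    n n))))) (u z3 n (u z2 n (w z3 (u z2 n (u z1 n (u z3 n (w z2 (w z2 n (u z3 n (u z1 n (w z1 (w z3
    n (u z1 n (u z2 n (w z1 n (u z3 n n))))) (u z2 (u z3 n (u z1 n n)) (w z3 n n)))))) (w z3 n (w z1
    n n)))))) (w z1 (w z2 n (w z1 n (w z3 (u z3 (u z3 n (u z1 n n)) (u z2 n (w z1 n (u z1 (u z2 n (u
    z1 n (w z2 n (u z3 n (w z1 n (w z3 n n)))))) (w z3 n (w z2 n n)))))) (u z2 n (u z1 n (u z3 n
    n)))))) n))))))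

/-- word tree -/
def t1 : T :=
  (u z3 (w z2 n (u z1 n (u z2 n (u z3 n (w z3 (w z1 n (w z3 (u z2 n (u z1 n (w z1 n n))) (u z2 n
    (w z2 n n)))) (w z1 n n)))))) (u z1 (w z2 n (u z3 n (w z3 n (u z1 (u z3 n (u z1 n (u z2 n (w z2
    n (w z1 n (w z3 n n)))))) (w z1 n (u z2 (w z2 n (u z1 (w z2 n (w z3 n (w z1 n (u z3 n (u z2 n (u
    z1 n n)))))) (w z3 n (w z1 (u z1 n (w z1 n (w z2 n (w z3 n (u z3 n (u z2 n n)))))) (u z2 n (u z3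
    n n)))))) n)))))) (u z2 (w z2 n (u z2 n (u z1 n n))) (w z1 n (w z3 (u z2 n (w z2 n (u z1 (w z3 n
    (u z3 (u z1 n (w z2 n (w z1 n (u z3 n (u z2 n (w z3 n n)))))) (w z2 n (w z1 n (u z2 n (u z1 (w
    z2 n (w z3 n (w z1 n (u z3 n (u z2 n (u z1 n n)))))) n)))))) (w z1 n (u z3 n (w z3 n n)))))) (w
    z2 (u z1 n (u z3 (u z1 n (w z1 n n)) (w z1 n n))) n))))))

/-- word tree -/
def t2 : T :=
  (w z1 n (u z3 n (u z1 (w z2 n (w z3 n (u z1 (w z3 n (u z2 (w z1 n (u z1 n n)) (w z1 n (u z1 n (w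
    z2 n (u z3 (w z2 n (u z2 n (w z1 n (w z3 n (u z3 n (u z1 n n)))))) n)))))) (w z1 n (u z3 n (u z2
    (u z2 n (u z1 n (w z1 n (w z3 n (w z2 n n))))) n)))))) (u z2 (u z2 (u z1 n (w z2 n (u z3 (w z1 n
    (w z3 n (w z2 n (u z1 n (u z3 n n))))) (u z2 (u z2 n (u z1 n (w z1 n (w z2 n (w z3 n n))))) (w
    z1 n (w z3 n n)))))) (u z3 n (u z1 n (w z3 n (w z1 n (w z2 n n)))))) (w z2 n (w z3 (w z2 (w z1 n
    (u z1 n (w z2 n (u z3 n (u z2 n (w z3 (w z1 n (u z2 n (w z2 n (u z3 n (u z1 n (w z3 n n))))))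
    n)))))) (u z2 n (w z3 n (u z1 n (w z1 n (u z3 (w z1 n (u z1 n (u z2 n (w z3 n (w z2 n n)))))
    n)))))) n))))))

/-- word tree -/
def t3 : T :=
  (u z1 n (u z3 (w z1 n (u z1 n (u z3 n (w z2 n n)))) (u z2 n (w z2 (u z1 n (u z3 n (u z2 (u z3 (u
    z1 n (u z3 n (w z2 n n))) (u z2 n (u z1 n n))) (w z1 (u z3 (u z3 n (w z1 n (w z2 n (u z1 n (u z2
    n (w z3 n n)))))) (u z2 n (u z1 n (w z2 n (w z3 n (w z1 n n)))))) (w z2 n (w z3 n n)))))) (w z1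
    (u z2 n (w z1 n (w z3 n (u z1 (w z2 n (u z3 n (w z1 n (u z1 n (u z2 (u z3 n (w z2 n (u z1 n (u
    z2 n (w z1 n (w z3 n n)))))) (w z3 n n)))))) (u z3 n (w z2 n n)))))) (w z3 (u z3 (u z3 n (u z1 n
    (w z1 (w z1 n (u z3 n (w z3 n (u z1 n (u z2 n (w z2 n n)))))) (w z3 n (u z2 n (w z2 n n)))))) (w
    z2 (w z3 n (w z2 n (w z1 n (u z2 n (u z3 n (u z1 n n)))))) (u z2 n (w z1 n (w z3 n (u z1 n
    n)))))) n))))))

/-- word tree -/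
def t4 : T :=
  (w z2 n (u z2 (u z2 n (u z3 n (u z1 n (w z3 n (w z2 (u z1 (u z2 n (w z1 n n)) (u z2 n (w z3 n (w
    z1 (w z1 n (u z1 n (w z3 n (u z2 n (u z3 n (w z2 n n)))))) (w z2 (u z3 n (u z1 n (w z1 n (w z3 n
    (u z2 n (w z2 n n)))))) (u z3 n n)))))) (w z1 n n)))))) (u z1 (u z1 n (w z2 n (w z3 n (w z1 n (u
    z2 n (u z3 (w z3 n (u z2 n (w z1 n (u z3 n (w z2 n (u z1 n n)))))) n)))))) (u z3 n (w z3 (w z3 n
    (u z1 n (w z1 (w z3 n (w z2 n n)) (u z3 (u z3 (w z3 n n) (u z1 n (w z3 n (u z2 n (w z1 n (w z2 n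
    n)))))) (u z2 (u z2 n n) (w z2 n n)))))) (w z1 (u z3 (w z2 n (w z3 n (u z2 n (w z1 (w z3 n n)
    n)))) (u z2 n (w z2 (u z2 n (u z3 n (w z1 n (w z2 n (w z3 n n))))) (w z1 n (u z1 n (w z3 n
    n)))))) n))))))

/-- word tree -/
def t5 : T :=
  (u z2 (w z3 n (w z2 n (u z2 n n))) (u z1 (w z1 n (w z2 (u z1 n (w z3 n (u z3 n (w z1 n (w z2 n
    (u z2 n n)))))) (w z3 (u z2 n n) (u z3 n (u z1 (u z3 (w z3 n (u z1 n (w z1 n (w z2 n n)))) (w z3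
    (u z1 n n) (u z1 (w z1 n (u z1 n (u z3 n (w z2 n (w z3 n (u z2 n n)))))) (u z2 n (w z2 n (w z1
    (w z2 n (u z1 n (w z3 n (u z2 n (u z3 n (w z1 n n)))))) n)))))) (u z2 (u z1 n (u z3 n n))
    n)))))) (u z3 (w z2 n n) (w z3 (u z1 n (u z3 (u z1 n n) (w z2 n (w z1 n (w z3 n (u z2 n n))))))
    (w z1 (u z3 n n) (w z2 (u z2 n (u z1 n (u z3 n (w z3 (w z2 (u z1 n (w z2 n (u z2 n (w z1 n (u z3
    n (w z3 n n)))))) (w z3 n (w z1 (w z3 n (u z2 n n)) (u z2 (u z3 n (u z2 n (w z3 n (u z1 n (w z2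
    n (w z1 n n)))))) (u z1 n (u z3 (w z3 n (u z1 n (u z3 n (w z2 n n)))) n)))))) (w z2 n (w z1 n
    n)))))) n))))))

/-- word tree -/
def t6 : T :=
  (u z2 (w z1 n (u z1 (u z2 n (w z2 n (u z1 (u z1 n (w z1 n (u z2 n (w z3 n n)))) (u z3 n (w z3 n
    (w z1 n n)))))) (w z2 (w z3 n (w z1 (w z3 n (u z1 n (w z2 n (w z1 n (u z2 n (u z3 n n)))))) (u
    z3 n (w z2 n (u z1 n (u z2 n n)))))) (u z2 n (u z3 n (w z3 n n)))))) (u z3 (u z1 n (u z3 n n))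
    (u z1 n (w z3 (u z2 n (w z3 (w z2 n n) (w z1 (w z1 n (u z2 n (w z3 n (u z3 n (w z2 n (u z1 n
    n)))))) (u z3 (w z2 n (u z1 n (u z2 n n))) (u z1 n (w z2 n n)))))) (w z1 (w z1 n (w z2 (w z2 n
    (w z1 n (w z3 (w z1 n (u z3 n (u z1 n (u z2 n (w z3 n (w z2 n n)))))) (u z3 (u z2 n (u z1 n (w
    z2 n (w z3 n (u z3 n (w z1 n n)))))) (u z1 (w z2 n n) (u z2 n n)))))) (w z3 n (u z1 n (u z2 n (u
    z3 n n)))))) (w z2 n n))))))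

/-- word tree -/
def t7 : T :=
  (w z3 (u z3 n n) (u z1 n (u z3 (w z1 (w z3 n (u z1 n (u z2 n (w z2 n (w z1 n (u z3 n n)))))) (w
    z3 (w z3 n (u z1 n (u z3 n (u z2 (u z2 n (u z3 n (w z2 n (w z1 n (w z3 n n))))) (w z2 n (w z1 n
    n)))))) (u z2 (u z1 n n) (u z3 (u z1 n (w z2 n (u z2 n n))) (w z2 (u z1 n (u z2 n (w z3 n (w z2
    n n)))) (u z1 n n)))))) (u z2 (w z1 n (u z2 n (w z3 (u z1 (u z2 n (u z3 n (w z2 n (w z3 n n))))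
    (w z2 (u z3 n (u z2 n n)) (u z3 n (u z2 n (w z1 n (w z3 n n)))))) (u z3 n (u z1 n (w z2 (u z3 n
    (u z1 n (w z3 n (w z1 n (w z2 n (u z2 (w z1 n (w z2 n (u z3 n (u z2 n (u z1 n (w z3 n n))))))
    n)))))) n)))))) (w z1 (u z2 n (w z3 n (u z1 n (u z3 n (w z2 n (w z1 n n)))))) (w z2 n n))))))

/-- the trees -/
def ts : List T := [t0, t1, t2, t3, t4, t5, t6, t7]

theorem chk : allF (fun i t => ok S.missB t (stA (i % 4) (i / 4))) ts 8 = true := by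
  decide +kernel

end Pool.Agent.H27.Q8.ChkA1
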