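import Pool.Agent.H27.Q8.ChkDefs

/-!
# Stage O, t3 = 4 (generated)
-/

namespace Pool.Agent.H27.Q8.ChkO4

open C

/-- word tree -/
def t0 : T :=
  (u z2 (w z3 (u z1 (u z3 (w z1 n n) n) n) (w z2 (u z2 (u z1 n (w z1 n n)) (w z2 n n)) (w z1 (u z1
    n (w z1 n n)) (u z1 n (u z2 n (u z3 (u z2 (w z1 (u z1 (u z3 n n) n) (u z1 n n)) n) n)))))) (u z3
    n (u z1 (u z3 (w z1 n (u z1 n n)) (u z1 n (u z2 n n))) (w z3 (u z2 n (w z2 n (u z3 (u z2 n n)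
    n))) (w z1 n (w z2 (u z2 n (w z2 n (u z1 (u z1 (u z3 n n) n) n))) n))))))

/-- word tree -/
def t1 : T :=
  (u z3 n (u z2 n (u z1 (u z3 (w z2 n (u z1 n n)) n) (w z2 (u z3 n (u z1 (u z2 n n) (u z2 n (w z3
    (u z2 n (w z3 n n)) (w z2 n (w z1 n n)))))) (w z1 (u z1 n (w z1 n (w z2 n n))) (w z3 (w z2 (u z2
    n (w z3 n (w z2 n n))) (w z1 (w z1 n n) (w z3 n (u z2 n (u z1 n (u z3 (w z3 n (u z1 n (u z3 n
    n))) n)))))) n))))))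

/-- word tree -/
def t2 : T :=
  (u z3 (w z3 n (w z1 n (w z2 n n))) (u z1 (w z3 n (w z1 n (w z2 (w z2 n n) (u z1 n (u z3 n (u z2
    n n)))))) (u z2 (w z1 n (w z2 (w z1 n n) n)) (w z2 n (w z3 (u z1 (u z1 n (w z3 n n)) (u z3 n (w
    z2 n (w z3 n (w z1 n n))))) (w z1 (u z1 n (u z3 n n)) n))))))

/-- word tree -/
def t3 : T :=
  (u z2 (w z1 n (w z2 (u z1 n n) (u z3 (u z1 n (u z2 n (w z1 n (w z2 n n)))) (u z1 n (w z3 n (u z2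
    n n)))))) (u z1 (w z3 (w z1 n n) (u z2 n (w z2 n n))) (u z3 n (w z3 (w z1 (u z3 (u z3 n n) (u z2
    n n)) (w z2 (w z1 n (w z2 n n)) (w z3 n (u z3 n (u z2 n (u z1 n n)))))) (w z2 n (w z1 n n))))))

/-- word tree -/
def t4 : T :=
  (u z2 (w z3 (u z1 n n) n) (u z3 (w z2 n n) (u z1 (u z3 (u z3 n n) n) (w z2 (u z3 (u z1 (w z2 n
    n) (u z3 (u z3 n (w z2 n n)) n)) (u z2 (u z3 n (u z2 n (w z3 n (w z2 (w z1 (w z3 n n) n) n))))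
    (u z1 (u z2 n n) (w z1 (w z1 n (u z1 n (w z2 (u z3 (w z1 n n) n) n))) (w z2 n (w z3 (u z2 (w z3
    n (w z2 n n)) n) n)))))) (w z3 (u z1 (w z1 (u z3 n n) n) n) (w z1 (w z1 (w z1 n n) (u z2 n (w z2
    (u z2 (u z3 (w z1 (u z3 n n) n) n) (u z3 (w z3 n n) n)) (w z3 (w z1 (u z3 n n) n) n)))) n))))))

/-- word tree -/
def t5 : T :=
  (u z3 (w z2 n (u z3 n (u z2 (w z3 n (u z1 (u z1 n n) (u z2 n n))) (u z1 n (w z1 n n))))) (u z2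
    (u z1 n (u z2 n n)) (u z1 (w z3 (w z3 n (w z1 n (u z1 (w z3 n (u z2 n (u z1 n (u z3 n (w z1 n (w
    z2 n n)))))) n))) (w z2 n (w z1 (w z2 n n) (u z3 n (u z2 n (u z1 n n)))))) (w z1 n (w z2 (u z1
    (w z2 (u z3 n n) n) (u z2 n n)) (w z3 n n))))))

/-- word tree -/
def t6 : T :=
  (u z3 (u z3 (u z1 n n) (u z1 (u z1 n (w z1 n n)) (u z2 n (w z1 n (w z3 (u z2 n n) (w z2 n
    n)))))) (u z1 n (u z2 n (w z3 (u z2 n n) (w z2 (u z3 n (u z1 n (w z2 n (w z1 n (w z3 (w z2 n (u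
    z3 n (w z1 n (w z3 n n)))) (u z2 (u z2 (w z1 n (w z2 n n)) (w z3 (w z3 n (u z1 n n)) (u z3 n
    n))) n)))))) (w z1 (u z3 n n) n))))))

/-- word tree -/
def t7 : T :=
  (u z2 (w z1 (w z1 (u z2 n n) n) (w z3 n (w z2 (w z3 n n) (u z3 (u z1 (u z3 n n) n) (u z2 n (u z1
    (w z2 n n) n)))))) (u z1 (w z3 n (w z2 n (u z1 n (u z2 (w z2 n n) (u z3 (w z1 n n) (w z1 (u z1
    (u z2 n (w z1 n (w z2 (w z2 (u z3 n n) (u z3 n n)) n))) (w z1 n (u z3 n n))) n)))))) (u z3 (u z1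
    n (w z1 (u z3 (w z2 n n) n) (w z2 n (u z3 (u z2 (w z3 (u z1 n n) n) n) n)))) (w z1 (w z3 (u z2 n
    (w z3 (w z1 n (w z2 n n)) n)) n) (w z3 (u z2 (w z2 (w z1 n (w z2 n n)) (u z2 n n)) n) (w z2 n
    n))))))

/-- word tree -/
def t8 : T :=
  (u z2 (u z2 n n) (u z3 (w z1 n (w z3 n (u z1 (w z3 n (u z3 (w z3 n n) (u z2 (w z2 n n) (w z1 n
    (w z2 n n))))) (u z2 n (w z2 n n))))) (u z1 n (w z3 n (w z1 (w z3 (w z1 (u z1 n (w z2 n n)) (w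
    z3 (w z3 n (u z1 n (u z2 n n))) n)) (w z2 n (w z1 (u z2 (u z2 (u z2 n n) (u z1 n (u z3 n (w z2 n
    n)))) (u z3 (u z3 n (w z2 n n)) (u z1 n (w z1 n (w z3 n n))))) (u z3 n (u z1 n (u z2 n n))))))
    (w z2 n n))))))

/-- word tree -/
def t9 : T :=
  (u z3 (u z2 (u z2 (u z2 n (u z1 n (w z1 n (w z3 n (w z2 n n))))) (u z3 n n)) (u z1 n (w z3 n (w
    z2 n (u z3 (w z3 (w z1 n (u z2 n (w z2 n n))) (w z1 n n)) (w z1 n n)))))) (u z2 (u z1 (w z2 n n)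
    (u z3 n (u z2 n (w z3 n (w z2 n (w z1 n n)))))) (u z1 (u z2 (w z1 (w z3 n n) n) (w z3 n n)) (w
    z1 (u z3 (w z3 n (w z1 n n)) n) (w z2 n (w z3 n n))))))

/-- word tree -/
def t10 : T :=
  (u z3 (u z3 n (u z1 (u z2 (u z3 n (w z1 n n)) n) (w z3 n (u z2 (w z1 (u z1 n n) n) n)))) (u z1
    (u z1 (w z3 (u z1 n n) (w z2 n n)) (w z1 n (w z2 (u z1 (u z1 n n) (w z3 n n)) n))) (u z2 (u z2
    (w z2 (u z2 n n) (u z3 n (u z2 n n))) (u z3 n (u z1 (w z3 n (u z1 (u z3 n n) n)) (w z1 (u z3 (u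
    z3 n n) n) (w z3 (u z3 n n) (w z2 (w z2 (w z2 (u z3 n n) n) n) n)))))) (w z1 (u z1 (u z1 n n) (u
    z3 (w z2 n n) (u z2 (w z3 n n) n))) (w z2 (u z3 (u z2 n n) (w z3 (w z1 n n) n)) (w z3 (u z3 n (w
    z1 (u z3 n n) n)) n))))))

/-- word tree -/
def t11 : T :=
  (u z2 (w z1 (w z1 (u z1 n (u z2 n (w z3 n (w z2 (w z3 (u z2 n n) (u z3 n n)) (w z1 (u z2 n n)
    n))))) n) (w z2 n (w z3 n (u z1 (u z1 n n) (u z3 n (u z2 (w z2 n n) n)))))) (u z1 (w z2 n (w z1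
    (u z2 (u z2 n n) n) (w z3 (u z1 n n) (u z2 (u z3 (w z1 (w z3 n n) n) n) (u z3 (u z3 (w z3 n (w
    z2 n n)) (w z1 n (u z1 n (u z2 (u z1 n n) (w z3 (u z3 n n) n))))) (u z1 (w z1 n n) n)))))) (u z3
    (u z3 (u z1 n n) n) (w z3 (u z1 (w z3 n n) (w z1 n n)) (w z2 (u z2 n n) (w z1 n n))))))

/-- word tree -/
def t12 : T :=
  (w z3 n n)

/-- word tree -/
def t13 : T :=
  (w z3 n n)

/-- word tree -/
def t14 : T :=
  (w z3 n n)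

/-- word tree -/
def t15 : T :=
  (w z3 n n)

/-- word tree -/
def t16 : T :=
  (u z2 (w z1 (u z2 n n) (u z1 (w z1 n n) n)) (u z3 (u z2 (u z1 n n) (w z3 (u z3 n n) (u z1 (u z1
    n n) (u z3 n (w z1 (w z2 (w z3 n (u z1 (u z3 n n) n)) (u z3 (w z1 (w z2 n (u z3 n n)) n) n)) (w
    z2 (u z3 n n) n)))))) (u z1 n (w z1 (u z1 (w z1 n (u z1 n (u z2 (w z1 n (w z3 n (w z2 n n))) (w
    z3 n (w z2 n (u z3 (u z3 n n) n)))))) (u z2 n (u z3 (w z3 (u z3 (u z3 n (w z2 n n)) n) (u z1 (w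
    z3 n n) (u z3 n (w z2 (u z2 n (u z3 (w z1 n n) n)) n)))) (w z1 n (w z3 (u z3 (u z3 n n) n) (w z2
    n n)))))) (w z3 n (w z2 n n))))))

/-- word tree -/
def t17 : T :=
  (u z3 n (u z2 n (u z1 (u z2 (u z1 (w z2 n n) (u z2 n (w z3 n n))) (u z3 (u z2 n n) n)) (w z1 (u
    z2 (u z2 n (u z3 n n)) (w z2 (u z1 n n) (u z3 (u z2 n n) (u z1 (w z2 n (u z2 n n)) (w z3 n
    n))))) (w z3 (u z2 (w z3 n n) (u z1 n (u z3 n (w z1 (w z3 n (u z1 n (u z2 n (w z2 n n)))) (w z3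
    n (w z2 (u z3 n (u z1 n (u z2 n n))) n)))))) (w z2 (w z1 n n) n))))))

/-- word tree -/
def t18 : T :=
  (u z3 (w z3 (u z1 n (w z3 (w z2 (u z3 n n) n) n)) (w z1 (w z3 n (u z1 (u z1 n n) n)) (w z2 n (u
    z2 (w z2 n n) (u z1 (u z2 n n) (u z3 (u z2 (w z3 (u z1 (u z3 n n) n) n) n) n)))))) (u z1 (w z2
    (u z2 (u z3 n n) n) (w z1 (w z1 n (u z3 n n)) (u z1 n (w z3 (u z1 (w z3 n n) (u z2 n (w z3 n
    n))) (u z2 n n))))) (u z2 (u z2 n (u z3 (w z1 n n) n)) (w z1 (w z1 n (w z2 n (u z3 n (w z3 n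
    n)))) (w z3 n (w z2 (u z2 n (u z1 n (u z3 (u z1 n n) n))) n))))))

/-- word tree -/
def t19 : T :=
  (u z2 n (u z1 (w z1 (u z3 n (w z3 n n)) n) (u z3 (w z2 (w z1 n (w z2 (w z2 (u z2 (u z2 n n) n)
    (u z2 n n)) (u z2 (u z2 n n) n))) (u z3 n (u z2 n (w z1 (u z3 n (u z1 n (w z3 n (w z2 n n))))
    n)))) (w z1 (w z3 n n) (w z3 (w z2 (u z1 n (u z2 n (w z3 (u z3 n n) n))) (w z3 (u z3 n n) (w z1
    n (u z3 n (u z1 (u z3 (w z3 (w z2 n n) n) n) (u z2 n n)))))) (w z2 (w z2 (w z3 n n) (u z3 (u z1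
    (u z3 n n) n) (u z1 (w z1 n n) (w z3 n n)))) n))))))

/-- word tree -/
def t20 : T :=
  (w z1 n n)

/-- word tree -/
def t21 : T :=
  (w z1 n n)

/-- word tree -/
def t22 : T :=
  (w z1 n n)

/-- word tree -/
def t23 : T :=
  (w z1 n n)

/-- word tree -/
def t24 : T :=
  (u z2 (w z3 (u z3 (w z2 n n) n) (w z2 (w z1 (u z1 n n) (u z1 n n)) (u z1 n (u z3 (u z3 (w z3 n
    (u z2 n (u z1 n (u z3 n (w z1 n n))))) (u z1 (u z1 n (u z3 (w z1 n n) (w z2 n n))) (u z2 (w z3 n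
    n) n))) (u z2 (u z3 n n) n))))) (u z3 (u z1 n (u z2 n n)) (u z1 n (w z3 (u z3 n (w z3 n n)) (w
    z1 (u z2 n (u z3 (u z3 (w z1 n n) n) (w z1 n (w z2 (w z3 n (u z1 n (u z2 n (w z1 n n)))) (w z3 n
    (u z1 n n)))))) (w z2 n n))))))

/-- word tree -/
def t25 : T :=
  (u z3 (w z1 n n) (u z2 n (u z1 n (w z2 (u z2 (u z2 n (w z1 n (w z2 n n))) (w z1 (w z3 n n) (u z3
    (u z2 (u z3 n n) n) (w z2 n (u z1 n n))))) (w z1 (w z3 (u z1 n n) (w z2 (w z3 n n) (w z1 (w z1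
    (w z1 n n) n) (u z3 n (u z1 n (u z2 n n)))))) (w z3 (w z2 n (u z3 n (u z2 (w z3 (u z1 n n) (w z1
    n (w z2 (w z3 n (u z1 n (u z3 n (w z1 n n)))) n))) (w z3 n n)))) n))))))

/-- word tree -/
def t26 : T :=
  (u z3 (w z2 n (u z3 (u z3 (u z2 (w z3 n n) n) n) (u z1 n (w z1 (w z3 (u z3 n n) n) n)))) (u z1
    (u z1 (u z3 n n) (u z2 n (w z1 n (w z3 n n)))) (u z2 (u z3 n (u z1 (w z2 n n) n)) (w z3 (w z1 n
    n) (w z2 (u z2 (u z3 n (u z2 (u z3 (w z2 n n) n) n)) (u z1 (w z1 n n) (u z3 n (w z2 (u z3 n (u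
    z2 (u z3 n n) n)) (w z3 (u z3 (w z3 (w z2 n n) n) (u z2 (u z2 n (u z1 (u z1 n n) n)) (w z1 (u z1
    (w z1 (w z2 n n) n) n) (w z2 (u z2 (u z2 n n) n) n)))) (w z1 n n)))))) (w z1 (w z2 n (w z1 (w z1
    n (u z2 n n)) n)) n))))))

/-- word tree -/
def t27 : T :=
  (u z2 (w z1 n n) (u z1 (w z2 (w z2 (u z2 (w z1 (w z2 n n) n) (w z3 n n)) (u z1 (u z2 (u z3 n n)
    n) (u z3 n n))) (u z1 n n)) (u z3 (w z3 (u z2 (w z3 n n) n) n) (w z1 (u z3 n (w z1 (u z2 (w z3 n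
    n) n) (w z3 (w z2 (w z1 n n) n) n))) (w z2 (w z3 n (w z2 (u z1 n (w z1 (u z2 n n) n)) (u z1 n (u
    z3 (w z2 n n) n)))) (w z3 (u z2 (u z3 n n) (w z3 (w z3 (u z3 (w z3 n n) n) (u z1 (u z2 (w z3 n
    n) n) (u z2 n n))) (w z1 (w z1 n n) (w z2 n (u z3 n (u z1 n n)))))) n))))))

/-- word tree -/
def t28 : T :=
  (w z2 n n)

/-- word tree -/
def t29 : T :=
  (w z2 n n)

/-- word tree -/
def t30 : T :=
  (w z2 n n)

/-- word tree -/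
def t31 : T :=
  (w z2 n n)

/-- the trees -/
def ts : List T := [t0, t1, t2, t3, t4, t5, t6, t7, t8, t9, t10, t11, t12, t13, t14, t15, t16, t17, t18, t19, t20,
    t21, t22, t23, t24, t25, t26, t27, t28, t29, t30, t31]

theorem chk : allF (fun i t => ok S.missA t (stO (i % 4) (i / 4) 4)) ts 0 = true := by
  decide +kernel

end Pool.Agent.H27.Q8.ChkO4
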