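import Pool.Agent.H27.Q8.Sl
import Pool.Agent.H27.Q8.St

/-!
# Q8-01: the entries of a bit-sliced vector

`z` is a root of `z^3 = z + 1` in a field with `2 = 0`.  So `z^4 = z^2 + z`, `z^5 = z^2 + z + 1`,
`z^6 = z^2 + 1`, `z^7 = 1`, in particular `z ≠ 0`, `z⁻¹ = z^6`.
`ev_add`, `ev_mul`: `Nat.testBit_xor`, `Nat.testBit_and` (`Nat.xor a b = a ^^^ b`, `Nat.land a b = a &&& b`
by `rfl`), case distinction on the six bits (`cases h : x.a.testBit i`), then
`linear_combination` with `two` and `cub` (or substitute; e.g. `z^3 = z+1`, `z^4 = z^2+z`).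
`ev_m`, `val_*`: case distinction on the constant.
-/

namespace Pool.Agent.H27.Q8

variable {K : Type} [Field K]

/-- the `i`-th entry of a vector -/
def W.ev (z : K) (i : ℕ) (x : W) : K :=
  (if x.a.testBit i then 1 else 0) + (if x.b.testBit i then z else 0) +
    (if x.c.testBit i then z ^ 2 else 0)

/-- the constants as elements of the field -/
def C.val (z : K) : C → K
  | .z1 => z
  | .z2 => z ^ 2
  | .z3 => z ^ 3
  | .z4 => z ^ 4
  | .z5 => z ^ 5
  | .z6 => z ^ 6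

/-- `z` generates the field with 8 elements -/
structure Gen (z : K) : Prop where
  two : (2 : K) = 0
  cub : z ^ 3 = z + 1

variable {z : K}

private theorem Ev_h4 (h : Gen z) : z ^ 4 = z ^ 2 + z := by
  linear_combination z * h.cub

private theorem Ev_h5 (h : Gen z) : z ^ 5 = z ^ 2 + z + 1 := by
  linear_combination (z ^ 2 + 1) * h.cub

private theorem Ev_h6 (h : Gen z) : z ^ 6 = z ^ 2 + 1 := by
  linear_combination (z ^ 3 + z + 1) * h.cub + z * h.two


theorem Gen.z7 (h : Gen z) : z ^ 7 = 1 := by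
  linear_combination z * Ev_h6 h + h.cub + z * h.two

theorem Gen.ne (h : Gen z) : z ≠ 0 := by
  intro h0
  have := h.cub
  rw [h0] at this
  norm_num at this

theorem Gen.val_ne (h : Gen z) (k : C) : k.val z ≠ 0 ∧ k.val z ≠ 1 := by
  have h7 := h.z7
  have h1 : z ≠ 1 := by
    intro h0
    have h3 := h.cub
    have h2 := h.two
    rw [h0] at h3
    have : (1 : K) = 0 := by linear_combination h3 + h2
    exact one_ne_zero this
  have hne := h.ne
  refine ⟨?_, ?_⟩
  · cases k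
    · exact hne
    all_goals exact pow_ne_zero _ hne
  · intro hk
    apply h1
    cases k
    · exact hk
    · have hk' : z ^ 2 = 1 := hk
      linear_combination h7 - z * (z ^ 4 + z ^ 2 + 1) * hk'
    · have hk' : z ^ 3 = 1 := hk
      linear_combination h7 - z * (z ^ 3 + 1) * hk'
    · have hk' : z ^ 4 = 1 := hk
      linear_combination (-z) * h7 + (z ^ 4 + 1) * hk'
    · have hk' : z ^ 5 = 1 := hk
      linear_combination (-z) * (z ^ 7 + 1) * h7 + (z ^ 10 + z ^ 5 + 1) * hk'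
    · have hk' : z ^ 6 = 1 := hk
      linear_combination h7 - z * hk' 

/-- a bit as an element of the field -/
private def Ev_be (K : Type) [Field K] (b : Bool) : K := if b then 1 else 0

private theorem Ev_be_xor (h : Gen z) (b c : Bool) :
    Ev_be K (b ^^ c) = Ev_be K b + Ev_be K c := by
  cases b <;> cases c <;> simp [Ev_be]
  linear_combination (-1 : K) * h.two

private theorem Ev_be_and (b c : Bool) : Ev_be K (b && c) = Ev_be K b * Ev_be K c := by
  cases b <;> cases c <;> simp [Ev_be]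

private theorem Ev_ev (x : W) (i : ℕ) : x.ev z i =
    Ev_be K (x.a.testBit i) + Ev_be K (x.b.testBit i) * z + Ev_be K (x.c.testBit i) * z ^ 2 := by
  unfold W.ev Ev_be
  split_ifs <;> ring

private theorem Ev_tx (h : Gen z) (m n i : ℕ) : Ev_be K ((Nat.xor m n).testBit i) =
    Ev_be K (m.testBit i) + Ev_be K (n.testBit i) := by
  have : (Nat.xor m n).testBit i = (m.testBit i ^^ n.testBit i) := Nat.testBit_xor m n i
  rw [this, Ev_be_xor h]

private theorem Ev_ta (m n i : ℕ) : Ev_be K ((Nat.land m n).testBit i) =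
    Ev_be K (m.testBit i) * Ev_be K (n.testBit i) := by
  have : (Nat.land m n).testBit i = (m.testBit i && n.testBit i) := Nat.testBit_and m n i
  rw [this, Ev_be_and]

private theorem Ev_inv (h : Gen z) (k : C) : (k.val z)⁻¹ =
    match k with
    | .z1 => z ^ 6
    | .z2 => z ^ 5
    | .z3 => z ^ 4
    | .z4 => z ^ 3
    | .z5 => z ^ 2
    | .z6 => z := by
  have h7 := h.z7
  cases k
  · exact inv_eq_of_mul_eq_one_right (by show z * z ^ 6 = 1; linear_combination h7)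
  · exact inv_eq_of_mul_eq_one_right (by show z ^ 2 * z ^ 5 = 1; linear_combination h7)
  · exact inv_eq_of_mul_eq_one_right (by show z ^ 3 * z ^ 4 = 1; linear_combination h7)
  · exact inv_eq_of_mul_eq_one_right (by show z ^ 4 * z ^ 3 = 1; linear_combination h7)
  · exact inv_eq_of_mul_eq_one_right (by show z ^ 5 * z ^ 2 = 1; linear_combination h7)
  · exact inv_eq_of_mul_eq_one_right (by show z ^ 6 * z = 1; linear_combination h7)


theorem ev_add (h : Gen z) (i : ℕ) (x y : W) : (x.add y).ev z i = x.ev z i + y.ev z i := by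
  rw [Ev_ev, Ev_ev, Ev_ev]
  unfold W.add
  simp only [Ev_tx h]
  ring

theorem ev_mul (h : Gen z) (i : ℕ) (x y : W) : (x.mul y).ev z i = x.ev z i * y.ev z i := by
  rw [Ev_ev, Ev_ev, Ev_ev]
  unfold W.mul
  simp only [Ev_tx h, Ev_ta]
  linear_combination (-(Ev_be K (x.b.testBit i) * Ev_be K (y.c.testBit i) +
    Ev_be K (x.c.testBit i) * Ev_be K (y.b.testBit i)) -
    Ev_be K (x.c.testBit i) * Ev_be K (y.c.testBit i) * z) * h.cub

theorem ev_sq (h : Gen z) (i : ℕ) (x : W) : x.sq.ev z i = (x.ev z i) ^ 2 := by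
  rw [pow_two, ← ev_mul h, Ev_ev, Ev_ev]
  unfold W.sq W.mul
  have e1 : ∀ m n : ℕ, (Nat.xor m n).testBit i = (m.testBit i ^^ n.testBit i) :=
    fun m n => Nat.testBit_xor m n i
  have e2 : ∀ m n : ℕ, (Nat.land m n).testBit i = (m.testBit i && n.testBit i) :=
    fun m n => Nat.testBit_and m n i
  simp only [e1, e2]
  cases x.a.testBit i <;> cases x.b.testBit i <;> cases x.c.testBit i <;> rfl

theorem ev_m (h : Gen z) (i : ℕ) (k : C) (x : W) : (k.m x).ev z i = k.val z * x.ev z i := by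
  have h3 : z ^ 3 = z + 1 := h.cub
  have h4 : z ^ 4 = z ^ 2 + z := Ev_h4 h
  have h5 : z ^ 5 = z ^ 2 + z + 1 := Ev_h5 h
  have h6 : z ^ 6 = z ^ 2 + 1 := Ev_h6 h
  have h7 := h.z7
  rw [Ev_ev, Ev_ev]
  cases k
  · unfold C.m
    simp only [Ev_tx h]
    show _ = z * _
    linear_combination (-Ev_be K (x.c.testBit i)) * h3
  · unfold C.m
    simp only [Ev_tx h]
    show _ = z ^ 2 * _
    linear_combination (-Ev_be K (x.b.testBit i)) * h3 - Ev_be K (x.c.testBit i) * h4
  · unfold C.m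
    simp only [Ev_tx h]
    show _ = z ^ 3 * _
    linear_combination (-Ev_be K (x.a.testBit i)) * h3 - Ev_be K (x.b.testBit i) * h4 -
      Ev_be K (x.c.testBit i) * h5
  · unfold C.m
    simp only [Ev_tx h]
    show _ = z ^ 4 * _
    linear_combination (-Ev_be K (x.a.testBit i)) * h4 - Ev_be K (x.b.testBit i) * h5 -
      Ev_be K (x.c.testBit i) * h6
  · unfold C.m
    simp only [Ev_tx h]
    show _ = z ^ 5 * _
    linear_combination (-Ev_be K (x.a.testBit i)) * h5 - Ev_be K (x.b.testBit i) * h6 -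
      Ev_be K (x.c.testBit i) * h7
  · unfold C.m
    simp only [Ev_tx h]
    show _ = z ^ 6 * _
    linear_combination (-Ev_be K (x.a.testBit i)) * h6 - Ev_be K (x.b.testBit i) * h7 -
      Ev_be K (x.c.testBit i) * z * h7

theorem ev_one (i n : ℕ) (hi : n.testBit i = true) : (⟨n, 0, 0⟩ : W).ev z i = 1 := by
  simp [W.ev, hi]

/-- `1, z, z^2` are independent over `F_2` -/
theorem ev_eq_zero (h : Gen z) (i : ℕ) (x : W) : x.ev z i = 0 ↔ x.nz.testBit i = false := by
  have h3 : z ^ 3 = z + 1 := h.cub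
  have h4 : z ^ 4 = z ^ 2 + z := Ev_h4 h
  have h5 : z ^ 5 = z ^ 2 + z + 1 := Ev_h5 h
  have h6 : z ^ 6 = z ^ 2 + 1 := Ev_h6 h
  have hne := h.ne
  have e : x.nz.testBit i = (x.a.testBit i || (x.b.testBit i || x.c.testBit i)) := by
    have e1 : ∀ m n : ℕ, (Nat.lor m n).testBit i = (m.testBit i || n.testBit i) :=
      fun m n => Nat.testBit_or m n i
    unfold W.nz
    rw [e1, e1]
  rw [e, Ev_ev]
  cases x.a.testBit i <;> cases x.b.testBit i <;> cases x.c.testBit i
  · simp [Ev_be]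
  · simp [Ev_be, hne]
  · simp [Ev_be, hne]
  · have : z + z ^ 2 ≠ 0 := by
      rw [add_comm, ← h4]
      exact pow_ne_zero _ hne
    simpa [Ev_be] using this
  · simp [Ev_be]
  · have : 1 + z ^ 2 ≠ 0 := by
      rw [add_comm, ← h6]
      exact pow_ne_zero _ hne
    simpa [Ev_be] using this
  · have : 1 + z ≠ 0 := by
      rw [add_comm, ← h3]
      exact pow_ne_zero _ hne
    simpa [Ev_be] using this
  · have : 1 + z + z ^ 2 ≠ 0 := by
      have e2 : 1 + z + z ^ 2 = z ^ 5 := by rw [h5]; ring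
      rw [e2]
      exact pow_ne_zero _ hne
    simpa [Ev_be] using this

theorem val_k (h : Gen z) (k : C) : k.k.val z = k.val z + (k.val z)⁻¹ := by
  have h3 : z ^ 3 = z + 1 := h.cub
  have h4 : z ^ 4 = z ^ 2 + z := Ev_h4 h
  have h5 : z ^ 5 = z ^ 2 + z + 1 := Ev_h5 h
  have h6 : z ^ 6 = z ^ 2 + 1 := Ev_h6 h
  rw [Ev_inv h]
  cases k
  · show z ^ 5 = z + z ^ 6
    linear_combination (0:K)*h3 + h5 - h6
  · show z ^ 3 = z ^ 2 + z ^ 5
    linear_combination (0:K)*h3 + h3 - h5 + ((0) + (0)*z + (-1)*z^2)*h.two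
  · show z ^ 6 = z ^ 3 + z ^ 4
    linear_combination (0:K)*h3 + h6 - h3 - h4 + ((0) + (-1)*z + (0)*z^2)*h.two
  · show z ^ 6 = z ^ 4 + z ^ 3
    linear_combination (0:K)*h3 + h6 - h4 - h3 + ((0) + (-1)*z + (0)*z^2)*h.two
  · show z ^ 3 = z ^ 5 + z ^ 2
    linear_combination (0:K)*h3 + h3 - h5 + ((0) + (0)*z + (-1)*z^2)*h.two
  · show z ^ 5 = z ^ 6 + z
    linear_combination (0:K)*h3 + h5 - h6

theorem val_k2 (h : Gen z) (k : C) : k.k2.val z = (k.val z + (k.val z)⁻¹) ^ 2 := by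
  rw [← val_k h]
  cases k
  · show z ^ 3 = (z ^ 5) ^ 2
    linear_combination (-(z ^ 3) * (1)) * h.z7
  · show z ^ 6 = (z ^ 3) ^ 2
    linear_combination (0) * h.z7
  · show z ^ 5 = (z ^ 6) ^ 2
    linear_combination (-(z ^ 5) * (1)) * h.z7
  · show z ^ 5 = (z ^ 6) ^ 2
    linear_combination (-(z ^ 5) * (1)) * h.z7
  · show z ^ 6 = (z ^ 3) ^ 2
    linear_combination (0) * h.z7
  · show z ^ 3 = (z ^ 5) ^ 2
    linear_combination (-(z ^ 3) * (1)) * h.z7

theorem val_k3 (h : Gen z) (k : C) : k.k3.val z = (k.val z + (k.val z)⁻¹) ^ 3 := by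
  rw [← val_k h]
  cases k
  · show z = (z ^ 5) ^ 3
    linear_combination (-(z) * (1 + z ^ 7)) * h.z7
  · show z ^ 2 = (z ^ 3) ^ 3
    linear_combination (-(z ^ 2) * (1)) * h.z7
  · show z ^ 4 = (z ^ 6) ^ 3
    linear_combination (-(z ^ 4) * (1 + z ^ 7)) * h.z7
  · show z ^ 4 = (z ^ 6) ^ 3
    linear_combination (-(z ^ 4) * (1 + z ^ 7)) * h.z7
  · show z ^ 2 = (z ^ 3) ^ 3
    linear_combination (-(z ^ 2) * (1)) * h.z7
  · show z = (z ^ 5) ^ 3
    linear_combination (-(z) * (1 + z ^ 7)) * h.z7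

theorem val_c1 (h : Gen z) (k : C) : k.c1.val z = k.val z + 1 := by
  have h3 : z ^ 3 = z + 1 := h.cub
  have h4 : z ^ 4 = z ^ 2 + z := Ev_h4 h
  have h5 : z ^ 5 = z ^ 2 + z + 1 := Ev_h5 h
  have h6 : z ^ 6 = z ^ 2 + 1 := Ev_h6 h
  cases k
  · show z ^ 3 = z + 1
    linear_combination (0:K)*h3 + h3
  · show z ^ 6 = z ^ 2 + 1
    linear_combination (0:K)*h3 + h6
  · show z = z ^ 3 + 1
    linear_combination (0:K)*h3 - h3 + ((-1) + (0)*z + (0)*z^2)*h.two
  · show z ^ 5 = z ^ 4 + 1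
    linear_combination (0:K)*h3 + h5 - h4
  · show z ^ 4 = z ^ 5 + 1
    linear_combination (0:K)*h3 + h4 - h5 + ((-1) + (0)*z + (0)*z^2)*h.two
  · show z ^ 2 = z ^ 6 + 1
    linear_combination (0:K)*h3 - h6 + ((-1) + (0)*z + (0)*z^2)*h.two

theorem val_d1 (h : Gen z) (k : C) : k.d1.val z = (k.val z)⁻¹ + 1 := by
  have h3 : z ^ 3 = z + 1 := h.cub
  have h4 : z ^ 4 = z ^ 2 + z := Ev_h4 h
  have h5 : z ^ 5 = z ^ 2 + z + 1 := Ev_h5 h
  have h6 : z ^ 6 = z ^ 2 + 1 := Ev_h6 h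
  rw [Ev_inv h]
  cases k
  · show z ^ 2 = z ^ 6 + 1
    linear_combination (0:K)*h3 - h6 + ((-1) + (0)*z + (0)*z^2)*h.two
  · show z ^ 4 = z ^ 5 + 1
    linear_combination (0:K)*h3 + h4 - h5 + ((-1) + (0)*z + (0)*z^2)*h.two
  · show z ^ 5 = z ^ 4 + 1
    linear_combination (0:K)*h3 + h5 - h4
  · show z = z ^ 3 + 1
    linear_combination (0:K)*h3 - h3 + ((-1) + (0)*z + (0)*z^2)*h.two
  · show z ^ 6 = z ^ 2 + 1
    linear_combination (0:K)*h3 + h6
  · show z ^ 3 = z + 1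
    linear_combination (0:K)*h3 + h3

theorem val_c2 (h : Gen z) (k : C) : k.c2.val z = (k.val z + 1) ^ 2 := by
  rw [← val_c1 h]
  cases k
  · show z ^ 6 = (z ^ 3) ^ 2
    linear_combination (0) * h.z7
  · show z ^ 5 = (z ^ 6) ^ 2
    linear_combination (-(z ^ 5) * (1)) * h.z7
  · show z ^ 2 = (z) ^ 2
    linear_combination (0) * h.z7
  · show z ^ 3 = (z ^ 5) ^ 2
    linear_combination (-(z ^ 3) * (1)) * h.z7
  · show z = (z ^ 4) ^ 2
    linear_combination (-(z) * (1)) * h.z7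
  · show z ^ 4 = (z ^ 2) ^ 2
    linear_combination (0) * h.z7

theorem val_d2 (h : Gen z) (k : C) : k.d2.val z = ((k.val z)⁻¹ + 1) ^ 2 := by
  rw [← val_d1 h]
  cases k
  · show z ^ 4 = (z ^ 2) ^ 2
    linear_combination (0) * h.z7
  · show z = (z ^ 4) ^ 2
    linear_combination (-(z) * (1)) * h.z7
  · show z ^ 3 = (z ^ 5) ^ 2
    linear_combination (-(z ^ 3) * (1)) * h.z7
  · show z ^ 2 = (z) ^ 2
    linear_combination (0) * h.z7
  · show z ^ 5 = (z ^ 6) ^ 2
    linear_combination (-(z ^ 5) * (1)) * h.z7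
  · show z ^ 6 = (z ^ 3) ^ 2
    linear_combination (0) * h.z7

end Pool.Agent.H27.Q8
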