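import Mathlib

/-!
# Bit-sliced arithmetic in the field with 8 elements (helper27, MP_a408f4_al)

An element of `W` is a vector of elements of `F_8 = F_2[z]/(z^3+z+1)`: bit `i` of the three planes
`a, b, c` gives the `i`-th entry `a_i + b_i z + c_i z^2`.
-/

namespace Pool.Agent.H27.Q8

/-- vectors over `F_8`, bit-sliced -/
structure W where
  a : Nat
  b : Nat
  c : Nat

namespace W

/-- addition -/
def add (x y : W) : W := ⟨Nat.xor x.a y.a, Nat.xor x.b y.b, Nat.xor x.c y.c⟩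

/-- multiplication -/
def mul (x y : W) : W :=
  ⟨Nat.xor (Nat.land x.a y.a) (Nat.xor (Nat.land x.b y.c) (Nat.land x.c y.b)),
   Nat.xor (Nat.xor (Nat.land x.a y.b) (Nat.land x.b y.a))
     (Nat.xor (Nat.xor (Nat.land x.b y.c) (Nat.land x.c y.b)) (Nat.land x.c y.c)),
   Nat.xor (Nat.xor (Nat.land x.a y.c) (Nat.land x.b y.b))
     (Nat.xor (Nat.land x.c y.a) (Nat.land x.c y.c))⟩

/-- the square -/
def sq (x : W) : W := ⟨x.a, x.c, Nat.xor x.b x.c⟩

/-- non zero entries -/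
def nz (x : W) : Nat := Nat.lor x.a (Nat.lor x.b x.c)

end W

/-- the elements of `F_8` different from 0 and 1: `z, z^2, ..., z^6` -/
inductive C
  | z1 | z2 | z3 | z4 | z5 | z6

/-- multiplication by the constant -/
def C.m (k : C) (x : W) : W :=
  match k with
  | .z1 => ⟨x.c, Nat.xor x.a x.c, x.b⟩
  | .z2 => ⟨x.b, Nat.xor x.b x.c, Nat.xor x.a x.c⟩
  | .z3 => ⟨Nat.xor x.a x.c, Nat.xor (Nat.xor x.a x.c) x.b, Nat.xor x.b x.c⟩
  | .z4 => ⟨Nat.xor x.b x.c, Nat.xor x.a x.b, Nat.xor (Nat.xor x.a x.b) x.c⟩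
  | .z5 => ⟨Nat.xor (Nat.xor x.a x.b) x.c, x.a, Nat.xor x.a x.b⟩
  | .z6 => ⟨Nat.xor x.a x.b, x.c, x.a⟩

/-- `c + 1/c` -/
def C.k : C → C | .z1 => .z5 | .z2 => .z3 | .z3 => .z6 | .z4 => .z6 | .z5 => .z3 | .z6 => .z5
/-- `(c + 1/c)^2` -/
def C.k2 : C → C | .z1 => .z3 | .z2 => .z6 | .z3 => .z5 | .z4 => .z5 | .z5 => .z6 | .z6 => .z3
/-- `c + 1` -/
def C.c1 : C → C | .z1 => .z3 | .z2 => .z6 | .z3 => .z1 | .z4 => .z5 | .z5 => .z4 | .z6 => .z2
/-- `1/c + 1` -/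
def C.d1 : C → C | .z1 => .z2 | .z2 => .z4 | .z3 => .z5 | .z4 => .z1 | .z5 => .z6 | .z6 => .z3
/-- `(c + 1)^2` -/
def C.c2 : C → C | .z1 => .z6 | .z2 => .z5 | .z3 => .z2 | .z4 => .z3 | .z5 => .z1 | .z6 => .z4
/-- `(1/c + 1)^2` -/
def C.d2 : C → C | .z1 => .z4 | .z2 => .z1 | .z3 => .z3 | .z4 => .z2 | .z5 => .z5 | .z6 => .z6
/-- `(c + 1/c)^3` -/
def C.k3 : C → C | .z1 => .z1 | .z2 => .z2 | .z3 => .z4 | .z4 => .z4 | .z5 => .z2 | .z6 => .z1

/-- the ten invariants of two hyperbolic pairs -/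
structure S where
  p11 : W
  p12 : W
  p21 : W
  p22 : W
  t1 : W
  t2 : W
  t3 : W
  t4 : W
  s1 : W
  s2 : W
  one : Nat

namespace S

def pp (s : S) : W := s.p11.mul s.p22
def qq (s : S) : W := s.p12.mul s.p21
def u (s : S) : W := s.p11.mul s.p21
def v (s : S) : W := s.p12.mul s.p22
def a (s : S) : W := s.t2.mul s.p11
def b (s : S) : W := s.t1.mul s.p21
def a' (s : S) : W := s.t2.mul s.p12
def b' (s : S) : W := s.t1.mul s.p22
def t34 (s : S) : W := s.t3.mul s.t4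
def t12 (s : S) : W := s.t1.mul s.t2
def y (s : S) : W := s.s2.add s.t34
def zz (s : S) : W := (s.a.add s.b).add (s.t3.add (s.t3.mul s.s1))
def zz' (s : S) : W := (s.a'.add s.b').add (s.t4.add (s.t4.mul s.s1))
def A (s : S) : W := (s.t3.mul s.p12).add (s.t4.mul s.p11)
def B (s : S) : W := (s.t3.mul s.p22).add (s.t4.mul s.p21)
def x0 (s : S) : W := s.t34.add (s.t34.mul s.s1)
def x3 (s : S) : W := (s.A.mul s.B).add ((s.qq.mul s.s2).add (s.pp.mul (s.s1.add s.s2)))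
def ss (s : S) : W := s.s1.add s.s1.sq

/-- the invariants of `(Y, h_X(c) Y)` -/
def step (k : C) (s : S) : S where
  p11 := (k.k2.m s.u).add (k.k.m s.t3.sq)
  p12 := ((k.k.m s.y).add (k.d1.m s.s1)).add
    (((k.c2.m s.pp).add (k.d2.m s.qq)).add ⟨s.one, 0, 0⟩)
  p21 := ((k.k.m s.y).add (k.c1.m s.s1)).add
    (((k.c2.m s.qq).add (k.d2.m s.pp)).add ⟨s.one, 0, 0⟩)
  p22 := (k.k2.m s.v).add (k.k.m s.t4.sq)
  t1 := (k.k.m s.zz).add ((k.c2.m s.a).add (k.d2.m s.b))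
  t2 := (k.k.m s.zz').add ((k.c2.m s.a').add (k.d2.m s.b'))
  t3 := (k.k.m s.zz).add ((k.d2.m s.a).add (k.c2.m s.b))
  t4 := (k.k.m s.zz').add ((k.d2.m s.a').add (k.c2.m s.b'))
  s1 := (k.k.m s.ss).add (k.k2.m s.t12)
  s2 := (k.k2.m s.x0).add (k.k3.m s.x3)
  one := s.one

/-- interchange of the two pairs -/
def swap (s : S) : S where
  p11 := s.p11
  p12 := s.p21
  p21 := s.p12
  p22 := s.p22
  t1 := s.t3
  t2 := s.t4
  t3 := s.t1
  t4 := s.t2
  s1 := s.s1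
  s2 := s.s2
  one := s.one

/-- bit `i` is set if the `i`-th state is not in the target set `V` -/
def missV (s : S) : Nat :=
  Nat.land (Nat.land (Nat.lor s.p11.nz (Nat.lor s.t1.nz s.t3.nz))
    (Nat.lor s.p12.nz (Nat.lor s.t1.nz s.t4.nz)))
  (Nat.land (Nat.lor s.p21.nz (Nat.lor s.t2.nz s.t3.nz))
    (Nat.lor s.p22.nz (Nat.lor s.t2.nz s.t4.nz)))

/-- bit `i` is set if the `i`-th state is not in the target set `VB` -/
def missB (s : S) : Nat :=
  Nat.land (Nat.land (Nat.lor s.p11.nz (Nat.land s.t1.nz s.t3.nz))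
    (Nat.lor s.p12.nz (Nat.land s.t1.nz s.t4.nz)))
  (Nat.land (Nat.lor s.p21.nz (Nat.land s.t2.nz s.t3.nz))
    (Nat.lor s.p22.nz (Nat.land s.t2.nz s.t4.nz)))

/-- bit `i` is set if the `i`-th state is not in the target set `VA` -/
def missA (s : S) : Nat :=
  Nat.land (Nat.land s.p11.nz s.p12.nz) (Nat.land s.p21.nz s.p22.nz)

end S

/-- trees of words -/
inductive T
  | nil
  | cons (k : C) (sw : Bool) (child next : T)

/-- the states which are not moved into the target set by a word of the tree -/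
noncomputable def T.run (miss : S → Nat) (t : T) : S → Nat :=
  T.rec (fun s => s.one)
    (fun k sw _ _ ch nx s =>
      Nat.land (miss (S.step k (Bool.rec s (S.swap s) sw)))
        (Nat.land (ch (S.step k (Bool.rec s (S.swap s) sw))) (nx s))) t

/-- the bits of the numbers `0, ..., 2^n - 1` in position `b` -/
noncomputable def pl (b n : Nat) : Nat :=
  Nat.rec 0 (fun m ih => Bool.rec (Nat.lor ih (Nat.shiftLeft ih (Nat.pow 2 m)))
    (Nat.shiftLeft (Nat.sub (Nat.pow 2 (Nat.pow 2 m)) 1) (Nat.pow 2 m)) (Nat.beq b m)) n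

/-- all `2^n` bits set -/
def mask (n : Nat) : Nat := Nat.sub (Nat.pow 2 (Nat.pow 2 n)) 1

/-- the `k`-th variable -/
noncomputable def vr (n k : Nat) : W := ⟨pl (3 * k) n, pl (3 * k + 1) n, pl (3 * k + 2) n⟩

/-- a constant, `v < 8` -/
noncomputable def cst (n v : Nat) : W :=
  ⟨Bool.rec 0 (mask n) (Nat.testBit v 0), Bool.rec 0 (mask n) (Nat.testBit v 1),
    Bool.rec 0 (mask n) (Nat.testBit v 2)⟩

end Pool.Agent.H27.Q8
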