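import Pool.Agent.H27.Q8.ChkB00
import Pool.Agent.H27.Q8.ChkB01
import Pool.Agent.H27.Q8.ChkB10
import Pool.Agent.H27.Q8.ChkB11
import Pool.Agent.H27.Q8.ChkA0
import Pool.Agent.H27.Q8.ChkA1
import Pool.Agent.H27.Q8.ChkA2
import Pool.Agent.H27.Q8.ChkA3
import Pool.Agent.H27.Q8.ChkO0
import Pool.Agent.H27.Q8.ChkO1
import Pool.Agent.H27.Q8.ChkO2
import Pool.Agent.H27.Q8.ChkO3
import Pool.Agent.H27.Q8.ChkO4
import Pool.Agent.H27.Q8.ChkO5
import Pool.Agent.H27.Q8.ChkO6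
import Pool.Agent.H27.Q8.ChkO7

/-!
# The kernel checks, collected
-/

namespace Pool.Agent.H27.Q8

theorem exB (m t4 : ℕ) (hm : m < 4) (ht : t4 < 2) : ∃ t, ok S.missV t (stB m t4) = true := by
  interval_cases m <;> interval_cases t4
  · exact exists_of_allF _ _ ChkB00.chk 0 (by decide)
  · exact exists_of_allF _ _ ChkB10.chk 0 (by decide)
  · exact exists_of_allF _ _ ChkB00.chk 1 (by decide)
  · exact exists_of_allF _ _ ChkB10.chk 1 (by decide)
  · exact exists_of_allF _ _ ChkB01.chk 0 (by decide)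
  · exact exists_of_allF _ _ ChkB11.chk 0 (by decide)
  · exact exists_of_allF _ _ ChkB01.chk 1 (by decide)
  · exact exists_of_allF _ _ ChkB11.chk 1 (by decide)

theorem exA (m p : ℕ) (hm : m < 4) (hp : p < 8) : ∃ t, ok S.missB t (stA m p) = true := by
  have h0 : ∀ i < 8, ∃ t, ok S.missB t (stA ((0 + i) % 4) ((0 + i) / 4)) = true := fun i hi =>
    exists_of_allF _ _ ChkA0.chk i hi
  have h1 : ∀ i < 8, ∃ t, ok S.missB t (stA ((8 + i) % 4) ((8 + i) / 4)) = true := fun i hi =>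
    exists_of_allF _ _ ChkA1.chk i hi
  have h2 : ∀ i < 8, ∃ t, ok S.missB t (stA ((16 + i) % 4) ((16 + i) / 4)) = true := fun i hi =>
    exists_of_allF _ _ ChkA2.chk i hi
  have h3 : ∀ i < 8, ∃ t, ok S.missB t (stA ((24 + i) % 4) ((24 + i) / 4)) = true := fun i hi =>
    exists_of_allF _ _ ChkA3.chk i hi
  obtain h | h | h | h : p < 2 ∨ (2 ≤ p ∧ p < 4) ∨ (4 ≤ p ∧ p < 6) ∨ 6 ≤ p := by omega
  · obtain ⟨t, ht⟩ := h0 (m + 4 * p) (by omega)
    rw [show (0 + (m + 4 * p)) % 4 = m by omega, show (0 + (m + 4 * p)) / 4 = p by omega] at ht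
    exact ⟨t, ht⟩
  · obtain ⟨t, ht⟩ := h1 (m + 4 * p - 8) (by omega)
    rw [show (8 + (m + 4 * p - 8)) % 4 = m by omega,
      show (8 + (m + 4 * p - 8)) / 4 = p by omega] at ht
    exact ⟨t, ht⟩
  · obtain ⟨t, ht⟩ := h2 (m + 4 * p - 16) (by omega)
    rw [show (16 + (m + 4 * p - 16)) % 4 = m by omega,
      show (16 + (m + 4 * p - 16)) / 4 = p by omega] at ht
    exact ⟨t, ht⟩
  · obtain ⟨t, ht⟩ := h3 (m + 4 * p - 24) (by omega)
    rw [show (24 + (m + 4 * p - 24)) % 4 = m by omega,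
      show (24 + (m + 4 * p - 24)) / 4 = p by omega] at ht
    exact ⟨t, ht⟩

theorem exO (m t1 t3 : ℕ) (hm : m < 4) (h1 : t1 < 8) (h3 : t3 < 8) :
    ∃ t, ok S.missA t (stO m t1 t3) = true := by
  have key : ∀ i < 32, ∃ t, ok S.missA t (stO ((0 + i) % 4) ((0 + i) / 4) t3) = true := by
    intro i hi
    interval_cases t3
    · exact exists_of_allF _ _ ChkO0.chk i hi
    · exact exists_of_allF _ _ ChkO1.chk i hi
    · exact exists_of_allF _ _ ChkO2.chk i hi
    · exact exists_of_allF _ _ ChkO3.chk i hi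
    · exact exists_of_allF _ _ ChkO4.chk i hi
    · exact exists_of_allF _ _ ChkO5.chk i hi
    · exact exists_of_allF _ _ ChkO6.chk i hi
    · exact exists_of_allF _ _ ChkO7.chk i hi
  obtain ⟨t, ht⟩ := key (m + 4 * t1) (by omega)
  rw [show (0 + (m + 4 * t1)) % 4 = m by omega, show (0 + (m + 4 * t1)) / 4 = t1 by omega] at ht
  exact ⟨t, ht⟩

end Pool.Agent.H27.Q8
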